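import Mathlib

/-!
# Functions of low degree on the cube
-/

open Finset

namespace Pool.Agent.helper88.EW

set_option linter.unusedSectionVars false

section

variable {I : Type*} [Fintype I] [DecidableEq I] {p : ℕ} [Fact p.Prime]

/-- The value of a bit. -/
def bv (p : ℕ) (b : Bool) : ZMod p := if b then 1 else 0

/-- A monomial. -/
def mo (p : ℕ) (S : Finset I) : (I → Bool) → ZMod p := fun x => ∏ i ∈ S, bv p (x i)

theorem mo_eq (S : Finset I) (x : I → Bool) :
    mo p S x = if ∀ i ∈ S, x i = true then 1 else 0 := by
  unfold mo bv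
  rw [Finset.prod_ite_zero]
  simp

theorem mo_mul (S T : Finset I) : mo p S * mo p T = mo p (S ∪ T) := by
  funext x
  rw [Pi.mul_apply, mo_eq, mo_eq, mo_eq]
  by_cases h1 : ∀ i ∈ S, x i = true
  · by_cases h2 : ∀ i ∈ T, x i = true
    · have h3 : ∀ i ∈ S ∪ T, x i = true := by
        intro i hi
        rcases Finset.mem_union.1 hi with h | h
        · exact h1 i h
        · exact h2 i h
      rw [if_pos h1, if_pos h2, if_pos h3, mul_one]
    · have h3 : ¬ ∀ i ∈ S ∪ T, x i = true := fun h => h2 fun i hi =>
        h i (Finset.mem_union_right _ hi)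
      rw [if_neg h2, if_neg h3, mul_zero]
  · have h3 : ¬ ∀ i ∈ S ∪ T, x i = true := fun h => h1 fun i hi =>
      h i (Finset.mem_union_left _ hi)
    rw [if_neg h1, if_neg h3, zero_mul]

/-- The functions of degree at most `D`. -/
def Deg (I : Type*) [Fintype I] [DecidableEq I] (p : ℕ) (D : ℕ) :
    Submodule (ZMod p) ((I → Bool) → ZMod p) :=
  Submodule.span (ZMod p) {f | ∃ S : Finset I, S.card ≤ D ∧ f = mo p S}

theorem Deg.mono {a b : ℕ} (h : a ≤ b) {f : (I → Bool) → ZMod p} (hf : f ∈ Deg I p a) :
    f ∈ Deg I p b := by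
  refine Submodule.span_mono ?_ hf
  rintro g ⟨S, hS, rfl⟩
  exact ⟨S, hS.trans h, rfl⟩

theorem Deg.mo_mem {S : Finset I} {a : ℕ} (h : S.card ≤ a) : mo p S ∈ Deg I p a :=
  Submodule.subset_span ⟨S, h, rfl⟩

theorem Deg.one (a : ℕ) : (1 : (I → Bool) → ZMod p) ∈ Deg I p a := by
  have : (1 : (I → Bool) → ZMod p) = mo p (∅ : Finset I) := by
    funext x; simp [mo]
  rw [this]
  exact Deg.mo_mem (by simp)

theorem Deg.const (c : ZMod p) (a : ℕ) : (fun _ => c : (I → Bool) → ZMod p) ∈ Deg I p a := by
  have : (fun _ => c : (I → Bool) → ZMod p) = c • (1 : (I → Bool) → ZMod p) := by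
    funext x; simp
  rw [this]
  exact Submodule.smul_mem _ _ (Deg.one a)

theorem Deg.mul {a b : ℕ} {f g : (I → Bool) → ZMod p} (hf : f ∈ Deg I p a)
    (hg : g ∈ Deg I p b) : f * g ∈ Deg I p (a + b) := by
  have h := Submodule.mul_mem_mul hf hg
  unfold Deg at h
  rw [Submodule.span_mul_span] at h
  refine Submodule.span_mono ?_ h
  rintro _ ⟨_, ⟨S, hS, rfl⟩, _, ⟨T, hT, rfl⟩, rfl⟩
  exact ⟨S ∪ T, (Finset.card_union_le _ _).trans (Nat.add_le_add hS hT), mo_mul S T⟩

theorem Deg.pow {a : ℕ} {f : (I → Bool) → ZMod p} (hf : f ∈ Deg I p a) (m : ℕ) :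
    f ^ m ∈ Deg I p (m * a) := by
  induction m with
  | zero => rw [pow_zero]; exact Deg.one _
  | succ m ih =>
    rw [pow_succ, Nat.succ_mul]
    exact Deg.mul ih hf

theorem Deg.prod {κ : Type*} (J : Finset κ) (f : κ → (I → Bool) → ZMod p) (a : κ → ℕ)
    (h : ∀ j ∈ J, f j ∈ Deg I p (a j)) : ∏ j ∈ J, f j ∈ Deg I p (∑ j ∈ J, a j) := by
  classical
  induction J using Finset.induction_on with
  | empty => rw [Finset.prod_empty]; exact Deg.one _
  | insert j J hj ih =>
    rw [Finset.prod_insert hj, Finset.sum_insert hj]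
    exact Deg.mul (h j (Finset.mem_insert_self _ _))
      (ih fun i hi => h i (Finset.mem_insert_of_mem hi))

theorem Deg.coord (i : I) : (fun x => bv p (x i) : (I → Bool) → ZMod p) ∈ Deg I p 1 := by
  have : (fun x => bv p (x i) : (I → Bool) → ZMod p) = mo p {i} := by
    funext x; simp [mo]
  rw [this]
  exact Deg.mo_mem (by simp)

/-- Functions of few bits have low degree. -/
theorem Deg.of_dep (X : Finset I) (f : (I → Bool) → ZMod p)
    (hf : ∀ x y, (∀ i ∈ X, x i = y i) → f x = f y) : f ∈ Deg I p X.card := by
  have h : f = ∑ t ∈ X.powerset, f (fun i => decide (i ∈ t)) •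
      ∏ i ∈ X, (if i ∈ t then (fun x : I → Bool => bv p (x i)) else
        (1 - (fun x : I → Bool => bv p (x i)) : (I → Bool) → ZMod p)) := by
    funext x
    rw [Finset.sum_apply]
    have key : ∀ t ∈ X.powerset, (f (fun i => decide (i ∈ t)) •
        ∏ i ∈ X, (if i ∈ t then (fun x : I → Bool => bv p (x i)) else
        (1 - (fun x : I → Bool => bv p (x i)) : (I → Bool) → ZMod p))) x =
        if t = X.filter (fun i => x i = true) then f x else 0 := by
      intro t ht
      rw [Finset.mem_powerset] at ht
      rw [Pi.smul_apply, Finset.prod_apply, smul_eq_mul]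
      by_cases h : t = X.filter (fun i => x i = true)
      · rw [if_pos h]
        have h1 : f (fun i => decide (i ∈ t)) = f x := by
          refine hf _ _ fun i hi => ?_
          rw [h]
          by_cases hx : x i = true
          · simp [hi, hx]
          · simp [hx]
        rw [h1, Finset.prod_eq_one, mul_one]
        intro i hi
        by_cases hx : x i = true
        · have : i ∈ t := by rw [h]; simp [hi, hx]
          simp [this, bv, hx]
        · have : i ∉ t := by rw [h]; simp [hx]
          simp [this, bv, hx]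
      · rw [if_neg h]
        have h2 : ∃ i ∈ X, ¬ (i ∈ t ↔ x i = true) := by
          by_contra hcon
          push Not at hcon
          apply h
          ext i
          rw [Finset.mem_filter]
          constructor
          · intro hi
            exact ⟨ht hi, (hcon i (ht hi)).1 hi⟩
          · rintro ⟨hi, hx⟩
            exact (hcon i hi).2 hx
        obtain ⟨i, hi, hne⟩ := h2
        rw [Finset.prod_eq_zero hi, mul_zero]
        by_cases hx : x i = true
        · have : i ∉ t := fun h => hne ⟨fun _ => hx, fun _ => h⟩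
          simp [this, bv, hx]
        · have : i ∈ t := by
            by_contra h
            exact hne ⟨fun h' => absurd h' h, fun h' => absurd h' hx⟩
          simp [this, bv, hx]
    rw [Finset.sum_congr rfl key, Finset.sum_ite_eq', if_pos]
    simp
  rw [h]
  refine Submodule.sum_mem _ fun t _ => Submodule.smul_mem _ _ ?_
  have := Deg.prod X (fun i => (if i ∈ t then (fun x : I → Bool => bv p (x i)) else
        (1 - (fun x : I → Bool => bv p (x i)) : (I → Bool) → ZMod p))) (fun _ => 1) (by
      intro i _
      split_ifs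
      · exact Deg.coord i
      · exact Submodule.sub_mem _ (Deg.one 1) (Deg.coord i))
  rwa [Finset.sum_const, smul_eq_mul, mul_one] at this

/-- Sum over the cube with alternating signs. -/
theorem Deg.alt_sum {D : ℕ} (hD : D < Fintype.card I) {f : (I → Bool) → ZMod p}
    (hf : f ∈ Deg I p D) :
    ∑ x : I → Bool, (∏ i, (if x i then (-1 : ZMod p) else 1)) * f x = 0 := by
  unfold Deg at hf
  induction hf using Submodule.span_induction with
  | mem f hf =>
    obtain ⟨S, hS, rfl⟩ := hf
    obtain ⟨i, hi⟩ : ∃ i, i ∉ S := by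
      by_contra hcon
      push Not at hcon
      have : S = Finset.univ := Finset.eq_univ_iff_forall.2 hcon
      rw [this, Finset.card_univ] at hS
      omega
    refine Finset.sum_involution (fun x _ => Function.update x i (!x i)) ?_ ?_ ?_ ?_
    · intro x _
      have h1 : mo p S (Function.update x i (!x i)) = mo p S x := by
        unfold mo
        refine Finset.prod_congr rfl fun j hj => ?_
        have : j ≠ i := fun h => hi (h ▸ hj)
        rw [Function.update_of_ne this]
      have h2 : (∏ j, (if (Function.update x i (!x i)) j then (-1 : ZMod p) else 1)) =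
          - ∏ j, (if x j then (-1 : ZMod p) else 1) := by
        rw [← Finset.mul_prod_erase Finset.univ _ (Finset.mem_univ i),
          ← Finset.mul_prod_erase Finset.univ (fun j => if x j then (-1 : ZMod p) else 1)
            (Finset.mem_univ i)]
        have h3 : ∏ j ∈ Finset.univ.erase i,
            (if (Function.update x i (!x i)) j then (-1 : ZMod p) else 1) =
            ∏ j ∈ Finset.univ.erase i, (if x j then (-1 : ZMod p) else 1) := by
          refine Finset.prod_congr rfl fun j hj => ?_
          rw [Function.update_of_ne (Finset.ne_of_mem_erase hj)]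
        rw [h3, Function.update_self]
        cases x i <;> simp
      rw [h1, h2]
      ring
    · intro x _ _ h
      have := congrFun h i
      rw [Function.update_self] at this
      cases hx : x i <;> simp [hx] at this
    · intro x _
      exact Finset.mem_univ _
    · intro x _
      simp
  | zero => simp
  | add f g _ _ hf hg =>
    simp only [Pi.add_apply, mul_add]
    rw [Finset.sum_add_distrib, hf, hg, add_zero]
  | smul c f _ hf =>
    have : ∀ x : I → Bool, (∏ i, (if x i then (-1 : ZMod p) else 1)) * (c • f) x =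
        c * ((∏ i, (if x i then (-1 : ZMod p) else 1)) * f x) := by
      intro x
      rw [Pi.smul_apply, smul_eq_mul]
      ring
    rw [Finset.sum_congr rfl fun x _ => this x, ← Finset.mul_sum, hf, mul_zero]

/-- **Few functions of low degree do not determine the point `(1, …, 1)`.** -/
theorem exists_other {κ : Type*} (J : Finset κ) (P : κ → (I → Bool) → ZMod p) (a : κ → ℕ)
    (hP : ∀ j ∈ J, P j ∈ Deg I p (a j)) (h : (p - 1) * ∑ j ∈ J, a j < Fintype.card I) :
    ∃ x : I → Bool, (∃ i, x i = false) ∧ ∀ j ∈ J, P j x = P j (fun _ => true) := by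
  by_contra hcon
  push Not at hcon
  have hp := (Fact.out : p.Prime)
  set f : (I → Bool) → ZMod p := ∏ j ∈ J, (1 - (P j - fun _ => P j (fun _ => true)) ^ (p - 1))
    with hf
  have h1 : f ∈ Deg I p (∑ j ∈ J, (p - 1) * a j) := by
    refine Deg.prod J _ _ fun j hj => Submodule.sub_mem _ (Deg.one _) ?_
    exact Deg.pow (Submodule.sub_mem _ (hP j hj) (Deg.const _ _)) _
  rw [← Finset.mul_sum] at h1
  have h2 := Deg.alt_sum h h1
  have h3 : ∀ x : I → Bool, f x = ∏ j ∈ J, (1 - (P j x - P j (fun _ => true)) ^ (p - 1)) := by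
    intro x
    rw [hf, Finset.prod_apply]
    rfl
  rw [Finset.sum_eq_single (fun _ => true)] at h2
  · rw [h3] at h2
    have hp1 : p - 1 ≠ 0 := by
      have := hp.two_le
      omega
    simp [zero_pow hp1] at h2
  · intro x _ hx
    have hx' : ∃ i, x i = false := by
      by_contra hc
      push Not at hc
      apply hx
      funext i
      simpa using hc i
    obtain ⟨j, hj, hne⟩ := hcon x hx'
    rw [h3, Finset.prod_eq_zero hj, mul_zero]
    rw [ZMod.pow_card_sub_one_eq_one (sub_ne_zero.2 hne), sub_self]
  · intro h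
    exact absurd (Finset.mem_univ _) h

/-- Polynomials in functions of low degree. -/
theorem Deg.eval {τ : Type*} (P : MvPolynomial τ (ZMod p)) (g : τ → (I → Bool) → ZMod p) {a : ℕ}
    (hg : ∀ i, g i ∈ Deg I p a) :
    (fun x => MvPolynomial.eval (fun i => g i x) P) ∈ Deg I p (P.totalDegree * a) := by
  have h : (fun x => MvPolynomial.eval (fun i => g i x) P) =
      ∑ m ∈ P.support, P.coeff m • ∏ i ∈ m.support, g i ^ m i := by
    funext x
    rw [MvPolynomial.eval_eq, Finset.sum_apply]
    refine Finset.sum_congr rfl fun m _ => ?_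
    rw [Pi.smul_apply, Finset.prod_apply, smul_eq_mul]
    rfl
  rw [h]
  refine Submodule.sum_mem _ fun m hm => Submodule.smul_mem _ _ ?_
  refine Deg.mono ?_ (Deg.prod m.support (fun i => g i ^ m i) (fun i => m i * a)
    fun i _ => Deg.pow (hg i) _)
  rw [← Finset.sum_mul]
  exact Nat.mul_le_mul_right a (MvPolynomial.le_totalDegree hm)

end

end Pool.Agent.helper88.EW
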