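import Pool.Agent.helper88.EW.CJunta
import Pool.Agent.helper88.EW.Deg
import Pool.Agent.helper64.Planted

/-!
# A planted clique which circuits with arbitrary gates and polynomials of low degree do not see
-/

open Finset

namespace Pool.Agent.helper88.EW

open Pool.Agent.helper64

set_option linter.unusedSectionVars false

theorem circ_planted (d c e0 : ℕ) (he0 : 1 ≤ e0) : ∃ s K0 : ℕ, ∀ n k : ℕ, K0 ≤ k →
    k ≤ c * Nat.log 2 n → ∀ M : ℕ, M ≤ 2 ^ (c * Nat.log 2 n) → ∀ q : ℕ, q ^ e0 * n ≤ n ^ e0 →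
    ∀ (κ : Type) [Fintype κ], Fintype.card κ ≤ 2 ^ (c * Nat.log 2 n) →
    ∀ f : κ → SimpleGraph (Fin n) → Prop, (∀ j, IsC M d q (f j)) →
    ∃ (A : Finset (Fin n)) (B : Sym2 (Fin n) → Bool) (Q : κ → Finset (Fin n)),
      A.card = k ∧ (∀ j, (Q j).card ≤ s) ∧
      (∀ x y : Sym2 (Fin n) → Bool, (∀ e, e ∉ prs A → x e = B e) → (∀ e, e ∉ prs A → y e = B e) →
        ∀ j, (∀ e ∈ (Q j).sym2, x e = y e) → (f j (toG x) ↔ f j (toG y))) ∧
      ∀ x : Sym2 (Fin n) → Bool, (∀ e, e ∉ prs A → x e = B e) → (∃ e ∈ prs A, x e = false) →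
        (toG x).CliqueFree k := by
  obtain ⟨s, L1, D1, hs⟩ := circ_junta d (c + 1) c (8 * e0)
  obtain ⟨L2, hL2⟩ := exists_sq_le_two_pow' (100 * (c + 1)) (16 * e0)
  refine ⟨s, c * (L1 + L2 + 100 + 2 * D1 + 16 * e0) + 16 * D1 + 3, ?_⟩
  intro n k hkK hkL M hM q hq κ _ hκ f hf
  classical
  set L := Nat.log 2 n with hLdef
  have hcpos : 0 < c := by
    rcases Nat.eq_zero_or_pos c with h | h
    · rw [h] at hkL hkK; omega
    · exact h
  have hL : L1 + L2 + 100 + 2 * D1 + 16 * e0 ≤ L := by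
    have : c * (L1 + L2 + 100 + 2 * D1 + 16 * e0) ≤ c * L := by omega
    exact Nat.le_of_mul_le_mul_left this hcpos
  have hn0 : n ≠ 0 := by
    intro h
    rw [h] at hLdef
    simp at hLdef
    omega
  have hn1 : 2 ^ L ≤ n := Nat.pow_log_le_self 2 hn0
  have hn2 : n < 2 ^ (L + 1) := Nat.lt_pow_succ_log_self (by norm_num) n
  -- parameters
  set m := (k - 1) / 2 with hm
  have hmk : 2 * m + 1 ≤ k := by omega
  have hmD : 8 * D1 + 1 ≤ m := by omega
  set b := 4 * L / m + 1 with hb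
  have hbpos : 1 ≤ b := Nat.le_add_left 1 _
  have hbm : 4 * L ≤ b * m := by
    have h1 := Nat.div_add_mod (4 * L) m
    have h2 := Nat.mod_lt (4 * L) (show 0 < m by omega)
    have h3 : b * m = m * (4 * L / m) + m := by rw [hb]; ring
    rw [h3]
    omega
  have hbD : D1 * b ≤ L := by
    have h1 : m * (4 * L / m) ≤ 4 * L := Nat.mul_div_le _ _
    have h2 : (8 * D1) * (4 * L / m) ≤ m * (4 * L / m) := Nat.mul_le_mul_right _ (by omega)
    have h3 : D1 * b = D1 * (4 * L / m) + D1 := by rw [hb]; ring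
    have h4 : (8 * D1) * (4 * L / m) = 8 * (D1 * (4 * L / m)) := by ring
    have h5 : 2 * D1 ≤ L := by omega
    generalize D1 * (4 * L / m) = y at h3 h4
    generalize m * (4 * L / m) = z at h1 h2
    rw [h4] at h2
    rw [h3]
    omega
  set e := L / (4 * e0) with he
  have h4e : 0 < 4 * e0 := by omega
  have he1 : 4 * e0 * e ≤ L := Nat.mul_div_le L (4 * e0)
  have he2 : L < 4 * e0 * e + 4 * e0 := by
    have := Nat.lt_div_mul_add (a := L) h4e
    rw [he]; nlinarith
  have he4 : 4 ≤ e := by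
    by_contra h
    push Not at h
    have : 4 * e0 * e ≤ 4 * e0 * 3 := Nat.mul_le_mul_left _ (by omega)
    omega
  have heL : 4 * e ≤ L := by
    calc 4 * e ≤ 4 * e0 * e := by nlinarith
      _ ≤ L := he1
  set a := L - e with ha
  have haL : a + e = L := by omega
  set p : ℝ := (1 / 2 : ℝ) ^ a with hp
  have hp0 : 0 ≤ p := by positivity
  have hp1 : p ≤ 1 := pow_le_one₀ (by norm_num) (by norm_num)
  set β : ℝ := (1 / 2 : ℝ) ^ b with hβ
  have hβ0 : 0 ≤ β := by positivity
  have hβ1 : β ≤ 1 := pow_le_one₀ (by norm_num) (by norm_num)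
  have hLe : L ≤ 8 * e0 * e := by
    have : 4 * e0 ≤ 4 * e0 * e := Nat.le_mul_of_pos_right _ (by omega)
    nlinarith
  have hLe1 : L ≤ 16 * e0 * (e - 1) := by
    calc L ≤ 8 * e0 * e := hLe
      _ ≤ 8 * e0 * (2 * (e - 1)) := Nat.mul_le_mul_left _ (by omega)
      _ = 16 * e0 * (e - 1) := by ring
  have hq' : q * 2 ^ e ≤ 2 ^ a := by
    have h1 : q ^ e0 ≤ 2 ^ ((L + 1) * (e0 - 1)) := by
      have h3 : n ^ e0 = n ^ (e0 - 1) * n := by
        rw [← pow_succ]; congr 1; omega
      rw [h3] at hq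
      have h4 : q ^ e0 ≤ n ^ (e0 - 1) := Nat.le_of_mul_le_mul_right hq (Nat.pos_of_ne_zero hn0)
      refine h4.trans ?_
      rw [pow_mul]
      exact Nat.pow_le_pow_left hn2.le _
    have h2 : (q * 2 ^ e) ^ e0 ≤ (2 ^ a) ^ e0 := by
      rw [mul_pow, ← pow_mul, ← pow_mul]
      calc q ^ e0 * 2 ^ (e * e0) ≤ 2 ^ ((L + 1) * (e0 - 1)) * 2 ^ (e * e0) :=
            Nat.mul_le_mul_right _ h1
        _ = 2 ^ ((L + 1) * (e0 - 1) + e * e0) := by rw [← pow_add]
        _ ≤ 2 ^ (a * e0) := by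
            refine Nat.pow_le_pow_right (by norm_num) ?_
            have h5 : a * e0 + e * e0 = L * e0 := by rw [← add_mul, haL]
            obtain ⟨e', rfl⟩ : ∃ e', e0 = e' + 1 := ⟨e0 - 1, by omega⟩
            have h6 : (L + 1) * (e' + 1 - 1) = L * e' + e' := by
              rw [Nat.add_sub_cancel]; ring
            have h7 : L * (e' + 1) = L * e' + L := by ring
            have h8 : 4 * (e * (e' + 1)) ≤ L := by
              calc 4 * (e * (e' + 1)) = 4 * (e' + 1) * e := by ring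
                _ ≤ L := he1
            rw [h6]
            rw [h7] at h5
            omega
    exact (Nat.pow_le_pow_iff_left (by omega)).1 h2
  have hsq1 := hL2 L (by omega) (e - 1) hLe1
  have hsq2 := hL2 L (by omega) L (by nlinarith)
  have hbig : 4 * (c * L) + 4 ≤ (100 * (c + 1) * L) ^ 2 := by
    have h1 : 1 ≤ L := by omega
    have h2 : 1 ≤ 100 * (c + 1) * L := by nlinarith
    calc 4 * (c * L) + 4 ≤ 100 * (c + 1) * L := by nlinarith
      _ ≤ (100 * (c + 1) * L) ^ 2 := Nat.le_self_pow two_ne_zero _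
  -- the three bad events
  set bad1 : Finset (Fin n) → (Sym2 (Fin n) → Bool) → Prop := fun S B =>
    ∃ j ∈ (Finset.univ : Finset κ), ¬ IsJ s (rst S B (fun x => f j (toG x))) with hbad1
  set bad2 : Finset (Fin n) → (Sym2 (Fin n) → Bool) → Prop := fun S _ =>
    S.card < k with hbad2
  -- choice of A
  have hchoice : ∃ 𝒜 : Finset (Fin n) → Finset (Fin n), ∀ S, ¬ S.card < k →
      𝒜 S ⊆ S ∧ (𝒜 S).card = k := by
    have : ∀ S : Finset (Fin n), ∃ A : Finset (Fin n), ¬ S.card < k →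
        A ⊆ S ∧ A.card = k := by
      intro S
      by_cases h : S.card < k
      · exact ⟨∅, fun h' => absurd h h'⟩
      · obtain ⟨A, hA, hAc⟩ := Finset.exists_subset_card_eq (not_lt.1 h)
        exact ⟨A, fun _ => ⟨hA, hAc⟩⟩
    choose 𝒜 h𝒜 using this
    exact ⟨𝒜, h𝒜⟩
  obtain ⟨𝒜, h𝒜⟩ := hchoice
  set bad3 : Finset (Fin n) → (Sym2 (Fin n) → Bool) → Prop := fun S B =>
    ¬ S.card < k ∧ ∃ K : Finset (Fin n), K.card = k ∧ K ≠ 𝒜 S ∧
      ∀ e ∈ prs K \ prs (𝒜 S), B e = true with hbad3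
  have hb1 : Pr β p bad1 ≤ 1 / 4 := by
    refine (Pr_exists hβ0 hβ1 hp0 hp1 _ _).trans ?_
    refine (Finset.sum_le_sum fun j _ =>
      hs L (by omega) a b e (by omega) (by omega) hLe hbpos hbD _ M hM q hq' (f j) (hf j)).trans ?_
    rw [Finset.sum_const, nsmul_eq_mul, Finset.card_univ]
    have e : (c + 1) * L = c * L + L := by ring
    rw [e, pow_add, ← mul_assoc]
    have : (Fintype.card κ : ℝ) * (1 / 2 : ℝ) ^ (c * L) ≤ 1 := by
      calc (Fintype.card κ : ℝ) * (1 / 2 : ℝ) ^ (c * L) ≤ 2 ^ (c * L) * (1 / 2 : ℝ) ^ (c * L) := by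
            refine mul_le_mul_of_nonneg_right ?_ (by positivity)
            exact_mod_cast hκ
        _ = 1 := by rw [← mul_pow]; norm_num
    calc _ ≤ 1 * (1 / 2 : ℝ) ^ L := mul_le_mul_of_nonneg_right this (by positivity)
      _ ≤ 1 * (1 / 2 : ℝ) ^ 2 := by
          refine mul_le_mul_of_nonneg_left ?_ (by norm_num)
          exact pow_le_pow_of_le_one (by norm_num) (by norm_num) (by omega)
      _ = 1 / 4 := by norm_num
  have hb2 : Pr β p bad2 ≤ 1 / 4 := by
    refine (few_alive (V := Fin n) k hp0 hp1).trans ?_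
    rw [Fintype.card_fin]
    have h1 : (1 - p / 2) ^ n ≤ (1 / 2 : ℝ) ^ (2 ^ (L - a - 1)) := by
      have h0 : (1 - p / 2) ^ n ≤ (1 - p / 2) ^ (2 ^ L) :=
        pow_le_pow_of_le_one (by linarith) (by linarith) hn1
      refine h0.trans ?_
      have h2 : 1 - p / 2 = 1 - (1 / 2 : ℝ) ^ (a + 1) := by rw [hp, pow_succ]; ring
      have h3 : 2 ^ L = 2 ^ (a + 1) * 2 ^ (L - a - 1) := by
        rw [← pow_add]; congr 1; omega
      rw [h2, h3]
      exact half_pow_sub_le _ _
    have h2 : L - a - 1 = e - 1 := by omega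
    rw [h2] at h1
    have h4 : k + 2 ≤ 2 ^ (e - 1) := by
      refine le_trans ?_ (hbig.trans hsq1)
      omega
    calc (2:ℝ) ^ k * (1 - p / 2) ^ n
        ≤ 2 ^ k * (1 / 2 : ℝ) ^ (k + 2) := by
          refine mul_le_mul_of_nonneg_left (h1.trans ?_) (by positivity)
          exact pow_le_pow_of_le_one (by norm_num) (by norm_num) h4
      _ = 1 / 4 := by
          rw [pow_add (1 / 2 : ℝ) k 2, ← mul_assoc, ← mul_pow]; norm_num
  have hb3 : Pr β p bad3 ≤ 1 / 4 := by
    unfold Pr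
    have h1 : ∀ s : Fin n → Bool, Ep β (fun B : Sym2 (Fin n) → Bool =>
        ind (bad3 (al s) B)) ≤ 1 / 4 := by
      intro s
      by_cases hcard : (al s).card < k
      · have : (fun B : Sym2 (Fin n) → Bool => ind (bad3 (al s) B)) = fun _ => 0 := by
          funext B
          apply ind_neg
          rintro ⟨h, -⟩
          exact h hcard
        rw [this, Ep_const]; norm_num
      · obtain ⟨-, hAc⟩ := h𝒜 _ hcard
        have h3 : Ep β (fun B : Sym2 (Fin n) → Bool => ind (bad3 (al s) B)) ≤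
            ∑ j ∈ Finset.Icc 1 k, ((Fintype.card (Fin n) : ℝ) ^ 2 * β ^ m) ^ j := by
          refine le_trans ?_ (clique_union (𝒜 (al s)) hAc hmk hβ0 hβ1)
          refine Ep_mono hβ0 hβ1 fun B => ind_mono ?_
          rintro ⟨-, K, hK1, hK2, hK3⟩
          exact ⟨K, hK1, hK2, hK3⟩
        refine h3.trans ?_
        rw [Fintype.card_fin]
        have h4 : (n : ℝ) ^ 2 * β ^ m ≤ (1 / 2) ^ L := by
          have hnR : (n : ℝ) ≤ 2 ^ (L + 1) := by exact_mod_cast hn2.le
          have h5 : (n : ℝ) ^ 2 ≤ 2 ^ (2 * L + 2) := by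
            calc (n : ℝ) ^ 2 ≤ (2 ^ (L + 1)) ^ 2 := pow_le_pow_left₀ (Nat.cast_nonneg _) hnR 2
              _ = 2 ^ (2 * L + 2) := by rw [← pow_mul]; congr 1; ring
          have h6 : β ^ m ≤ (1 / 2 : ℝ) ^ (4 * L) := by
            rw [hβ, ← pow_mul]
            exact pow_le_pow_of_le_one (by norm_num) (by norm_num) hbm
          calc (n : ℝ) ^ 2 * β ^ m ≤ 2 ^ (2 * L + 2) * (1 / 2 : ℝ) ^ (4 * L) :=
                mul_le_mul h5 h6 (by positivity) (by positivity)
            _ = (1 / 2 : ℝ) ^ (2 * L - 2) := by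
                have : 4 * L = (2 * L + 2) + (2 * L - 2) := by omega
                rw [this, pow_add (1 / 2 : ℝ), ← mul_assoc, ← mul_pow]; norm_num
            _ ≤ (1 / 2) ^ L := pow_le_pow_of_le_one (by norm_num) (by norm_num) (by omega)
        calc ∑ j ∈ Finset.Icc 1 k, ((n : ℝ) ^ 2 * β ^ m) ^ j
            ≤ ∑ j ∈ Finset.Icc 1 k, (1 / 2 : ℝ) ^ L := by
              refine Finset.sum_le_sum fun j hj => ?_
              rw [Finset.mem_Icc] at hj
              calc ((n : ℝ) ^ 2 * β ^ m) ^ j ≤ ((1 / 2 : ℝ) ^ L) ^ j :=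
                    pow_le_pow_left₀ (by positivity) h4 j
                _ ≤ ((1 / 2 : ℝ) ^ L) ^ 1 :=
                    pow_le_pow_of_le_one (by positivity)
                      (pow_le_one₀ (by norm_num) (by norm_num)) hj.1
                _ = (1 / 2 : ℝ) ^ L := pow_one _
          _ = (k : ℝ) * (1 / 2 : ℝ) ^ L := by
              rw [Finset.sum_const, Nat.card_Icc, nsmul_eq_mul, Nat.add_sub_cancel]
          _ ≤ 1 / 4 := by
              have h5 : 4 * k ≤ 2 ^ L := by
                refine le_trans ?_ (hbig.trans hsq2)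
                omega
              have h6 : (4:ℝ) * (k : ℝ) ≤ 2 ^ L := by exact_mod_cast h5
              have h7 : (2:ℝ) ^ L * (1 / 2 : ℝ) ^ L = 1 := by rw [← mul_pow]; norm_num
              have h8 : (0:ℝ) < (1 / 2 : ℝ) ^ L := by positivity
              nlinarith
    calc Ep p (fun s : Fin n → Bool => Ep β (fun B : Sym2 (Fin n) → Bool =>
        ind (bad3 (al s) B))) ≤ Ep p (fun _ => (1 / 4 : ℝ)) := Ep_mono hp0 hp1 h1
      _ = 1 / 4 := Ep_const _ _
  -- a good outcome exists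
  have hgood : ∃ S B, ¬ (bad1 S B ∨ (bad2 S B ∨ bad3 S B)) := by
    by_contra hcon
    push Not at hcon
    have h1 : (1:ℝ) ≤ Pr β p (fun S B => bad1 S B ∨ (bad2 S B ∨ bad3 S B)) := by
      have : Pr (V := Fin n) β p (fun S B => bad1 S B ∨ (bad2 S B ∨ bad3 S B)) = 1 := by
        unfold Pr
        have h2 : ∀ (s : Fin n → Bool) (B : Sym2 (Fin n) → Bool),
            ind (bad1 (al s) B ∨ (bad2 (al s) B ∨ bad3 (al s) B)) = 1 :=
          fun s B => ind_pos (hcon _ _)
        simp_rw [h2, Ep_const]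
      rw [this]
    have h2 := Pr_or hβ0 hβ1 hp0 hp1 bad1 (fun S B => bad2 S B ∨ bad3 S B)
    have h3 := Pr_or hβ0 hβ1 hp0 hp1 bad2 bad3
    linarith
  obtain ⟨S, B, hSB⟩ := hgood
  push Not at hSB
  obtain ⟨hg1, hg2, hg3⟩ := hSB
  have hScard : ¬ S.card < k := hg2
  obtain ⟨hAS, hAc⟩ := h𝒜 S hScard
  set A := 𝒜 S with hA
  have hJ : ∀ j, IsJ s (rst S B (fun x => f j (toG x))) := by
    intro j
    by_contra hcon
    exact hg1 ⟨j, Finset.mem_univ j, hcon⟩
  choose Q hQ hQdep using hJ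
  have hprsS : ∀ e ∈ prs A, e ∈ S.sym2 := by
    intro e he
    exact Finset.sym2_mono hAS (Finset.mem_filter.1 he).1
  refine ⟨A, B, Q, hAc, hQ, ?_, ?_⟩
  · intro x y hx hy j hj
    have hmrg : ∀ x : Sym2 (Fin n) → Bool, (∀ e, e ∉ prs A → x e = B e) →
        mrg S.sym2 x B = x := by
      intro x hx
      funext e
      unfold mrg
      by_cases he : e ∈ S.sym2
      · simp [he]
      · have : e ∉ prs A := fun h => he (hprsS e h)
        simp [he, hx e this]
    have h3 := hQdep j x y hj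
    unfold rst at h3
    rw [hmrg x hx, hmrg y hy] at h3
    have h4 : f j (toG x) = f j (toG y) := h3
    rw [h4]
  · rintro x hx ⟨e', he', hxe'⟩ K hK
    by_cases hKA : K = A
    · induction e' using Sym2.ind with
      | _ u v =>
        obtain ⟨hu, hv, huv⟩ := mem_prs.1 he'
        have h1 := hK.isClique
        rw [hKA] at h1
        have h2 : (toG x).Adj u v := h1 hu hv huv
        rw [toG_adj, hxe'] at h2
        exact absurd h2.1 (by simp)
    · apply hg3
      refine ⟨hScard, K, hK.card_eq, hKA, ?_⟩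
      intro e he
      rw [Finset.mem_sdiff] at he
      obtain ⟨heK, heA⟩ := he
      induction e using Sym2.ind with
      | _ a b =>
        obtain ⟨ha', hb', hab⟩ := mem_prs.1 heK
        have h2 : (toG x).Adj a b := hK.isClique ha' hb' hab
        rw [toG_adj, hx _ heA] at h2
        exact h2.1

theorem mod_planted (p : ℕ) [Fact p.Prime] (d c e0 : ℕ) (he0 : 1 ≤ e0) : ∃ C K0 : ℕ,
    ∀ n k : ℕ, K0 ≤ k → k ≤ c * Nat.log 2 n → ∀ M : ℕ, M ≤ 2 ^ (c * Nat.log 2 n) →
    ∀ q : ℕ, q ^ e0 * n ≤ n ^ e0 →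
    ∀ (κ : Type) [Fintype κ], Fintype.card κ ≤ 2 ^ (c * Nat.log 2 n) →
    ∀ f : κ → SimpleGraph (Fin n) → Prop, (∀ j, IsC M d q (f j)) →
    ∃ G : SimpleGraph (Fin n), ¬ G.CliqueFree k ∧
      ∀ (ι : Type) (J : Finset ι) (P : ι → MvPolynomial κ (ZMod p)),
      C * ∑ j ∈ J, (P j).totalDegree ≤ k ^ 2 → ∃ G' : SimpleGraph (Fin n), G'.CliqueFree k ∧
        ∀ j ∈ J, MvPolynomial.eval (fun i => pv p (f i G')) (P j) =
          MvPolynomial.eval (fun i => pv p (f i G)) (P j) := by
  obtain ⟨s, K0, hs⟩ := circ_planted d c e0 he0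
  refine ⟨8 * p * (s ^ 2 + 1), K0 + 3, ?_⟩
  intro n k hk hkL M hM q hq κ _ hκ f hf
  classical
  obtain ⟨A, B, Q, hA, hQ, hdep, hfree⟩ := hs n k (by omega) hkL M hM q hq κ hκ f hf
  set I := {e : Sym2 (Fin n) // e ∈ prs A} with hI
  set ext : (I → Bool) → Sym2 (Fin n) → Bool := fun x e =>
    if h : e ∈ prs A then x ⟨e, h⟩ else B e with hext
  have hextB : ∀ x e, e ∉ prs A → ext x e = B e := by
    intro x e he
    simp [hext, he]
  have hcardI : Fintype.card I = k.choose 2 := by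
    rw [← hA, ← card_prs]
    exact Fintype.card_coe (prs A)
  refine ⟨toG (ext fun _ => true), ?_, ?_⟩
  · intro h
    apply h A
    constructor
    · intro u hu v hv huv
      rw [toG_adj]
      refine ⟨?_, huv⟩
      have : s(u, v) ∈ prs A := mem_prs.2 ⟨hu, hv, huv⟩
      simp [hext, this]
    · exact hA
  · intro ι J P hJ
    -- the degrees
    have hg : ∀ i, (fun x : I → Bool => pv p (f i (toG (ext x)))) ∈ Deg I p (s ^ 2) := by
      intro i
      set X : Finset I := Finset.univ.filter (fun e : I => (e : Sym2 (Fin n)) ∈ (Q i).sym2) with hX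
      have hXc : X.card ≤ s ^ 2 := by
        refine le_trans ?_ (card_sym2_le (Q i) (hQ i))
        rw [← Finset.card_map (Function.Embedding.subtype _)]
        refine Finset.card_le_card ?_
        intro e he
        obtain ⟨e', he', rfl⟩ := Finset.mem_map.1 he
        exact (Finset.mem_filter.1 he').2
      refine Deg.mono hXc (Deg.of_dep X _ fun x y hxy => ?_)
      have h1 : f i (toG (ext x)) ↔ f i (toG (ext y)) := by
        refine hdep _ _ (hextB x) (hextB y) i fun e he => ?_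
        by_cases h : e ∈ prs A
        · simp only [hext, h, dif_pos]
          exact hxy ⟨e, h⟩ (Finset.mem_filter.2 ⟨Finset.mem_univ _, he⟩)
        · rw [hextB x e h, hextB y e h]
      simp only [pv, h1]
    obtain ⟨x, ⟨i, hi⟩, hx⟩ := exists_other (I := I) (p := p) J
      (fun j x => MvPolynomial.eval (fun i => pv p (f i (toG (ext x)))) (P j))
      (fun j => (P j).totalDegree * s ^ 2)
      (fun j _ => Deg.eval (P j) (fun i x => pv p (f i (toG (ext x)))) hg) (by
        rw [← Finset.sum_mul, hcardI]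
        set T := ∑ j ∈ J, (P j).totalDegree with hT
        have hk3 : 3 ≤ k := by omega
        have hc : k ^ 2 < 8 * k.choose 2 := by
          have h1 : ((k ^ 2 : ℕ) : ℚ) < ((8 * k.choose 2 : ℕ) : ℚ) := by
            push_cast
            rw [Nat.cast_choose_two]
            have h2 : (3:ℚ) ≤ k := by exact_mod_cast hk3
            nlinarith
          exact_mod_cast h1
        have h2 : 8 * ((p - 1) * (T * s ^ 2)) ≤ 8 * p * (s ^ 2 + 1) * T := by
          calc 8 * ((p - 1) * (T * s ^ 2)) ≤ 8 * (p * (T * (s ^ 2 + 1))) := by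
                gcongr <;> omega
            _ = 8 * p * (s ^ 2 + 1) * T := by ring
        omega)
    refine ⟨toG (ext x), hfree _ (hextB x) ⟨i, i.2, ?_⟩, hx⟩
    have : ext x (i : Sym2 (Fin n)) = x i := by
      simp only [hext, i.2, dif_pos]
      rfl
    rw [this]
    exact hi

end Pool.Agent.helper88.EW
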