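import Mathlib

/-!
# Circuits of bounded depth with arbitrary gates of bounded fan-in and modular gates: definitions
-/

namespace Pool.Agent.helper88.EW

/-- `Rd q f`: there is a fixed set of at most `q` pairs of vertices whose adjacency determines
whether the graph has the property `f`. -/
def Rd {V : Type} (q : ℕ) (f : SimpleGraph V → Prop) : Prop :=
  ∃ D : Finset (Sym2 V), D.card ≤ q ∧ ∀ G G' : SimpleGraph V,
    (∀ u v, s(u, v) ∈ D → (G.Adj u v ↔ G'.Adj u v)) → (f G ↔ f G')

/-- `IsC M d q f`: the graph property `f` is computed by a circuit of depth `d`, built from OR and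
AND gates of fan-in `M` and arbitrary gates (for any Boolean function) of any fan-in, such that the
product of the fan-ins of the arbitrary gates along every path is at most `q`. (The inputs of the
circuit are arbitrary functions of pairs of vertices, whose number is counted in the product.) -/
def IsC {V : Type} (M : ℕ) : ℕ → ℕ → (SimpleGraph V → Prop) → Prop
  | 0, q, f => Rd q f
  | d + 1, q, f =>
    (∃ g : Fin M → SimpleGraph V → Prop, (∀ i, IsC M d q (g i)) ∧
      ((∀ G, f G ↔ ∃ i, g i G) ∨ (∀ G, f G ↔ ∀ i, g i G))) ∨
    (∃ (t q' : ℕ) (g : Fin t → SimpleGraph V → Prop) (F : (Fin t → Prop) → Prop),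
      0 < q' ∧ t * q' ≤ q ∧ (∀ i, IsC M d q' (g i)) ∧ ∀ G, f G ↔ F (fun i => g i G))

open Classical in
/-- The value (`0` or `1`) of a proposition in the ring `ZMod p`. -/
noncomputable def pv (p : ℕ) (P : Prop) : ZMod p := if P then 1 else 0

/-- `IsM p M d q D f`: the graph property `f` is an arbitrary function of the values of finitely many
polynomials over the field with `p` elements, whose degrees sum up to at most `D`, in `M` properties
which are computed by circuits as in `IsC M d q`. For instance, `f` may be given by a `MOD p` gate
(`D = 1`), or by an arbitrary function of `D` gates `MOD p`, applied to such circuits. -/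
def IsM {V : Type} (p M d q D : ℕ) (f : SimpleGraph V → Prop) : Prop :=
  ∃ (g : Fin M → SimpleGraph V → Prop) (t : ℕ) (P : Fin t → MvPolynomial (Fin M) (ZMod p))
    (F : (Fin t → ZMod p) → Prop), (∀ j, IsC M d q (g j)) ∧ ∑ i, (P i).totalDegree ≤ D ∧
    ∀ G, f G ↔ F (fun i => MvPolynomial.eval (fun j => pv p (g j G)) (P i))

end Pool.Agent.helper88.EW
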