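import Pool.Agent.helper88.EW.StarPlanted

/-!
# Restriction to a random set of vertices

Properties of graphs on `n` vertices which read at most `n^(2-1/e)` pairs read only pairs which meet
a bounded number of vertices, if the edges of the graph are in a suitable set `W` of `n^Ω(1)`
vertices.
-/

open Finset

namespace Pool.Agent.helper88.EW

open Pool.Agent.helper64

set_option linter.unusedSectionVars false

section

variable {V : Type} [Fintype V] [DecidableEq V]

/-- The ends of a pair. -/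
def ends (e : Sym2 V) : Finset V := univ.filter (fun v => v ∈ e)

theorem mem_ends {e : Sym2 V} {v : V} : v ∈ ends e ↔ v ∈ e := by simp [ends]

theorem card_ends_le (e : Sym2 V) : (ends e).card ≤ 2 := by
  induction e using Sym2.ind with
  | _ a b =>
    have : ends s(a, b) ⊆ {a, b} := by
      intro v hv
      rw [mem_ends, Sym2.mem_iff] at hv
      simp [hv]
    exact (card_le_card this).trans card_le_two

theorem card_ends {e : Sym2 V} (he : ¬ e.IsDiag) : (ends e).card = 2 := by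
  induction e using Sym2.ind with
  | _ a b =>
    rw [Sym2.mk_isDiag_iff] at he
    have : ends s(a, b) = {a, b} := by
      ext v; simp [mem_ends]
    rw [this, card_pair he]

/-- Probability that a sparse set of pairs contains a matching of alive pairs. -/
theorem match_bound (D : Finset (Sym2 V)) (m : ℕ) {p : ℝ} (hp0 : 0 ≤ p) (hp1 : p ≤ 1) :
    Ep p (fun s : V → Bool => ind (∃ M : Finset (Sym2 V), M.card = m ∧
      (∀ e ∈ M, e ∈ D ∧ ¬ e.IsDiag ∧ ∀ v ∈ ends e, s v = true) ∧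
      ∀ e ∈ M, ∀ e' ∈ M, e ≠ e' → Disjoint (ends e) (ends e'))) ≤ (D.card * p ^ 2) ^ m := by
  classical
  set 𝓜 := (powersetCard m D).filter (fun M => (∀ e ∈ M, ¬ e.IsDiag) ∧
    ∀ e ∈ M, ∀ e' ∈ M, e ≠ e' → Disjoint (ends e) (ends e')) with h𝓜
  calc _ ≤ Ep p (fun s : V → Bool => ∑ M ∈ 𝓜, ind (∀ v ∈ M.biUnion ends, s v = true)) := by
        refine Ep_mono hp0 hp1 fun s => ?_
        by_cases h : ∃ M : Finset (Sym2 V), M.card = m ∧
          (∀ e ∈ M, e ∈ D ∧ ¬ e.IsDiag ∧ ∀ v ∈ ends e, s v = true) ∧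
          ∀ e ∈ M, ∀ e' ∈ M, e ≠ e' → Disjoint (ends e) (ends e')
        · rw [ind_pos h]
          obtain ⟨M, hM1, hM2, hM3⟩ := h
          have hM : M ∈ 𝓜 := by
            rw [h𝓜, mem_filter, mem_powersetCard]
            exact ⟨⟨fun e he => (hM2 e he).1, hM1⟩, fun e he => (hM2 e he).2.1, hM3⟩
          refine le_trans (le_of_eq ?_) (Finset.single_le_sum (f := fun M : Finset (Sym2 V) =>
            ind (∀ v ∈ M.biUnion ends, s v = true)) (fun M _ => ind_nonneg _) hM)
          rw [ind_pos]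
          intro v hv
          obtain ⟨e, he, hve⟩ := mem_biUnion.1 hv
          exact (hM2 e he).2.2 v hve
        · rw [ind_neg h]
          exact Finset.sum_nonneg fun M _ => ind_nonneg _
    _ = ∑ M ∈ 𝓜, (p ^ 2) ^ m := by
        rw [Ep_sum]
        refine Finset.sum_congr rfl fun M hM => ?_
        rw [h𝓜, mem_filter, mem_powersetCard] at hM
        rw [Ep_cylinder p (M.biUnion ends) (fun _ => true), Finset.prod_const]
        have hc : (M.biUnion ends).card = 2 * m := by
          rw [card_biUnion hM.2.2, Finset.sum_congr rfl fun e he => card_ends (hM.2.1 e he),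
            Finset.sum_const, hM.1.2, smul_eq_mul, mul_comm]
        rw [hc, pow_mul]
        simp [ber]
    _ = (𝓜.card : ℝ) * (p ^ 2) ^ m := by rw [Finset.sum_const, nsmul_eq_mul]
    _ ≤ (D.card * p ^ 2) ^ m := by
        rw [mul_pow]
        refine mul_le_mul_of_nonneg_right ?_ (by positivity)
        have h1 : 𝓜.card ≤ (powersetCard m D).card := card_le_card (filter_subset _ _)
        rw [card_powersetCard] at h1
        exact_mod_cast h1.trans (Nat.choose_le_pow _ _)

end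

/-- **The set of vertices.** -/
theorem sub_universe (e c : ℕ) (he : 1 ≤ e) : ∃ s L0 : ℕ, ∀ n : ℕ, L0 ≤ Nat.log 2 n →
    ∀ (κ : Type) [Fintype κ], Fintype.card κ ≤ 2 ^ (c * Nat.log 2 n) →
    ∀ D : κ → Finset (Sym2 (Fin n)), (∀ j, (D j).card ^ e * n ≤ n ^ (2 * e)) →
    ∃ W : Finset (Fin n), Nat.log 2 n ≤ 16 * e * Nat.log 2 W.card ∧
      ∀ j, ∃ S : Finset (Fin n), S.card ≤ s ∧ ∀ u ∈ W, ∀ v ∈ W, u ≠ v → s(u, v) ∈ D j →
        u ∈ S ∨ v ∈ S := by
  set m := 4 * c * e + 1 with hm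
  refine ⟨m * 2, 16 * e * 4 + 8 * ((2 * e) * m + 2 * e), ?_⟩
  intro n hn κ _ hκ D hD
  classical
  set L := Nat.log 2 n with hL
  have hLpos : 1 ≤ L := by omega
  have hn0 : n ≠ 0 := by
    intro h
    rw [h] at hL
    simp at hL
    omega
  have hn1 : 2 ^ L ≤ n := Nat.pow_log_le_self 2 hn0
  have hn2 : n < 2 ^ (L + 1) := Nat.lt_pow_succ_log_self (by norm_num) n
  set b := L / (4 * e) with hb
  have h4e : 0 < 4 * e := by omega
  have hb1 : 4 * e * b ≤ L := Nat.mul_div_le L (4 * e)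
  have hb2 : L < 4 * e * b + 4 * e := by
    have := Nat.lt_div_mul_add (a := L) h4e
    rw [hb]; nlinarith
  have hb16 : 16 ≤ b := by
    by_contra h
    push Not at h
    have : 4 * e * b ≤ 4 * e * 15 := Nat.mul_le_mul_left _ (by omega)
    omega
  set a := L - b with ha
  have hbL : b ≤ L := by nlinarith
  have haL : a + b = L := by omega
  set p : ℝ := (1 / 2 : ℝ) ^ a with hp
  have hp0 : 0 ≤ p := by positivity
  have hp1 : p ≤ 1 := pow_le_one₀ (by norm_num) (by norm_num)
  set w := 2 ^ (b - 1) - 2 with hw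
  set bad1 : (Fin n → Bool) → Prop := fun s => (al s).card < w with hbad1
  set bad2 : κ → (Fin n → Bool) → Prop := fun j s => ∃ M : Finset (Sym2 (Fin n)), M.card = m ∧
      (∀ e ∈ M, e ∈ D j ∧ ¬ e.IsDiag ∧ ∀ v ∈ ends e, s v = true) ∧
      ∀ e ∈ M, ∀ e' ∈ M, e ≠ e' → Disjoint (ends e) (ends e') with hbad2
  have hb1' : Ep p (fun s => ind (bad1 s)) ≤ 1 / 4 := by
    have h0 := few_alive (V := Fin n) w (β := 0) hp0 hp1
    unfold Pr at h0
    simp_rw [Ep_const] at h0
    refine h0.trans ?_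
    rw [Fintype.card_fin]
    have h1 : (1 - p / 2) ^ n ≤ (1 / 2 : ℝ) ^ (2 ^ (L - a - 1)) := by
      have h0 : (1 - p / 2) ^ n ≤ (1 - p / 2) ^ (2 ^ L) :=
        pow_le_pow_of_le_one (by linarith) (by linarith) hn1
      refine h0.trans ?_
      have h2 : 1 - p / 2 = 1 - (1 / 2 : ℝ) ^ (a + 1) := by rw [hp, pow_succ]; ring
      have h3 : 2 ^ L = 2 ^ (a + 1) * 2 ^ (L - a - 1) := by
        rw [← pow_add]; congr 1; omega
      rw [h2, h3]
      exact half_pow_sub_le _ _
    have h2 : L - a - 1 = b - 1 := by omega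
    rw [h2] at h1
    have h3 : w + 2 = 2 ^ (b - 1) := by
      have : 2 ^ 1 ≤ 2 ^ (b - 1) := Nat.pow_le_pow_right (by norm_num) (by omega)
      omega
    calc (2:ℝ) ^ w * (1 - p / 2) ^ n ≤ 2 ^ w * (1 / 2 : ℝ) ^ (w + 2) := by
          rw [h3]
          exact mul_le_mul_of_nonneg_left h1 (by positivity)
      _ = 1 / 4 := by
          rw [pow_add (1 / 2 : ℝ) w 2, ← mul_assoc, ← mul_pow]; norm_num
  have hb2' : ∀ j, Ep p (fun s => ind (bad2 j s)) ≤ (1 / 2 : ℝ) ^ (c * L + 2) := by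
    intro j
    refine (match_bound (D j) m hp0 hp1).trans ?_
    -- compare the powers
    have h1 : ((D j).card : ℝ) ^ e * n ≤ (n : ℝ) ^ (2 * e) := by exact_mod_cast hD j
    have h2 : ((D j).card : ℝ) ^ e ≤ (2 : ℝ) ^ ((L + 1) * (2 * e - 1)) := by
      have hnR : (0:ℝ) < n := by exact_mod_cast Nat.pos_of_ne_zero hn0
      have h3 : (n : ℝ) ^ (2 * e) = (n : ℝ) ^ (2 * e - 1) * n := by
        rw [← pow_succ]; congr 1; omega
      rw [h3] at h1
      have h4 : ((D j).card : ℝ) ^ e ≤ (n : ℝ) ^ (2 * e - 1) := le_of_mul_le_mul_right h1 hnR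
      refine h4.trans ?_
      rw [pow_mul]
      refine pow_le_pow_left₀ hnR.le ?_ _
      exact_mod_cast hn2.le
    have h3 : (((D j).card : ℝ) * p ^ 2) ^ e ≤ (1 / 2 : ℝ) ^ (L - (2 * e - 1) - 2 * e * b) := by
      rw [mul_pow]
      have e1 : (p ^ 2) ^ e = (1 / 2 : ℝ) ^ (2 * e * a) := by
        rw [hp, ← pow_mul, ← pow_mul]; congr 1; ring
      rw [e1]
      have e2 : (L + 1) * (2 * e - 1) + (L - (2 * e - 1) - 2 * e * b) = 2 * e * a := by
        have h5 : 2 * e * a + 2 * e * b = 2 * e * L := by rw [← mul_add, haL]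
        have h6 : 2 * e * b ≤ L / 2 := by
          rw [Nat.le_div_iff_mul_le (by norm_num)]
          calc 2 * e * b * 2 = 4 * e * b := by ring
            _ ≤ L := hb1
        obtain ⟨e', rfl⟩ : ∃ e', e = e' + 1 := ⟨e - 1, by omega⟩
        have h7 : 2 * (e' + 1) - 1 = 2 * e' + 1 := by omega
        rw [h7]
        have h8 : (L + 1) * (2 * e' + 1) = 2 * e' * L + L + 2 * e' + 1 := by ring
        have h9 : 2 * (e' + 1) * L = 2 * e' * L + 2 * L := by ring
        rw [h8]
        have h10 : 8 * (2 * (e' + 1)) ≤ L := by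
          have : 0 ≤ (2 * (e' + 1)) * m := Nat.zero_le _
          omega
        omega
      calc ((D j).card : ℝ) ^ e * (1 / 2 : ℝ) ^ (2 * e * a)
          ≤ 2 ^ ((L + 1) * (2 * e - 1)) * (1 / 2 : ℝ) ^ (2 * e * a) :=
            mul_le_mul_of_nonneg_right h2 (by positivity)
        _ = (1 / 2 : ℝ) ^ (L - (2 * e - 1) - 2 * e * b) := by
            rw [← e2, pow_add, ← mul_assoc, ← mul_pow]; norm_num
    have h4 : L / 4 ≤ L - (2 * e - 1) - 2 * e * b := by
      have h6 : 2 * e * b ≤ L / 2 := by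
        rw [Nat.le_div_iff_mul_le (by norm_num)]
        calc 2 * e * b * 2 = 4 * e * b := by ring
          _ ≤ L := hb1
      have h10 : 8 * (2 * e) ≤ L := by
        have : 0 ≤ (2 * e) * m := Nat.zero_le _
        omega
      omega
    have h5 : (((D j).card : ℝ) * p ^ 2) ^ e ≤ (1 / 2 : ℝ) ^ (L / 4) :=
      h3.trans (pow_le_pow_of_le_one (by norm_num) (by norm_num) h4)
    -- the power `m`
    have h6 : ((((D j).card : ℝ) * p ^ 2) ^ m) ^ e ≤ ((1 / 2 : ℝ) ^ (c * L + 2)) ^ e := by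
      rw [← pow_mul, mul_comm m e, pow_mul]
      calc ((((D j).card : ℝ) * p ^ 2) ^ e) ^ m ≤ ((1 / 2 : ℝ) ^ (L / 4)) ^ m :=
            pow_le_pow_left₀ (by positivity) h5 m
        _ = (1 / 2 : ℝ) ^ (L / 4 * m) := by rw [← pow_mul]
        _ ≤ (1 / 2 : ℝ) ^ ((c * L + 2) * e) := by
            refine pow_le_pow_of_le_one (by norm_num) (by norm_num) ?_
            have h7 : L < 4 * (L / 4) + 4 := by omega
            have h8 : c * e * L ≤ c * e * (4 * (L / 4) + 3) := Nat.mul_le_mul_left _ (by omega)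
            have h9 : 3 * (c * e) + 2 * e ≤ L / 4 := by
              have : 8 * ((2 * e) * m + 2 * e) ≤ L := by omega
              have h11 : 2 * e * m = 8 * (c * e) * e + 2 * e := by rw [hm]; ring
              have h12 : c * e ≤ c * e * e := Nat.le_mul_of_pos_right _ he
              have h13 : 8 * (c * e) * e = 8 * (c * e * e) := by ring
              omega
            calc (c * L + 2) * e = c * e * L + 2 * e := by ring
              _ ≤ c * e * (4 * (L / 4) + 3) + 2 * e := by omega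
              _ = 4 * c * e * (L / 4) + (3 * (c * e) + 2 * e) := by ring
              _ ≤ 4 * c * e * (L / 4) + L / 4 := by omega
              _ = L / 4 * m := by rw [hm]; ring
        _ = ((1 / 2 : ℝ) ^ (c * L + 2)) ^ e := by rw [← pow_mul]
    exact le_of_pow_le_pow_left₀ (by omega) (by positivity) h6
  -- a good set
  have hgood : ∃ s : Fin n → Bool, ¬ bad1 s ∧ ∀ j, ¬ bad2 j s := by
    by_contra hcon
    push Not at hcon
    have h1 : (1 : ℝ) ≤ Ep p (fun s => ind (bad1 s)) + ∑ j, Ep p (fun s => ind (bad2 j s)) := by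
      rw [← Ep_sum, ← Ep_add, ← Ep_const (I := Fin n) p 1]
      refine Ep_mono hp0 hp1 fun s => ?_
      have hnn : 0 ≤ ∑ j, ind (bad2 j s) := Finset.sum_nonneg fun _ _ => ind_nonneg _
      by_cases h2 : bad1 s
      · rw [ind_pos h2]
        linarith
      · obtain ⟨j, hj⟩ := hcon s h2
        have h3 : ind (bad2 j s) ≤ ∑ j, ind (bad2 j s) :=
          Finset.single_le_sum (f := fun j => ind (bad2 j s)) (fun _ _ => ind_nonneg _)
            (Finset.mem_univ j)
        rw [ind_pos hj] at h3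
        have := ind_nonneg (bad1 s)
        linarith
    have h2 : ∑ j, Ep p (fun s => ind (bad2 j s)) ≤ 1 / 4 := by
      calc _ ≤ ∑ _j : κ, (1 / 2 : ℝ) ^ (c * L + 2) := Finset.sum_le_sum fun j _ => hb2' j
        _ = (Fintype.card κ : ℝ) * (1 / 2 : ℝ) ^ (c * L + 2) := by
            rw [Finset.sum_const, Finset.card_univ, nsmul_eq_mul]
        _ ≤ 2 ^ (c * L) * (1 / 2 : ℝ) ^ (c * L + 2) := by
            refine mul_le_mul_of_nonneg_right ?_ (by positivity)
            exact_mod_cast hκ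
        _ = 1 / 4 := by
            rw [pow_add (1 / 2 : ℝ) (c * L) 2, ← mul_assoc, ← mul_pow]; norm_num
    linarith
  obtain ⟨s, hs1, hs2⟩ := hgood
  refine ⟨al s, ?_, ?_⟩
  · have h1 : 2 ^ (b - 2) ≤ (al s).card := by
      have h2 : w ≤ (al s).card := not_lt.1 hs1
      refine le_trans ?_ h2
      have h3 : 2 ^ (b - 1) = 2 * 2 ^ (b - 2) := by
        rw [← pow_succ']; congr 1; omega
      have h4 : 2 ^ 1 ≤ 2 ^ (b - 2) := Nat.pow_le_pow_right (by norm_num) (by omega)
      omega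
    have h2 : b - 2 ≤ Nat.log 2 (al s).card := by
      rw [← Nat.log_pow (by norm_num : 1 < 2) (b - 2)]
      exact Nat.log_mono_right h1
    calc L ≤ 4 * e * b + 4 * e := hb2.le
      _ = 4 * e * (b + 1) := by ring
      _ ≤ 4 * e * (4 * (b - 2)) := Nat.mul_le_mul_left _ (by omega)
      _ = 16 * e * (b - 2) := by ring
      _ ≤ 16 * e * Nat.log 2 (al s).card := Nat.mul_le_mul_left _ h2
  · intro j
    rcases greedy (V := Fin n) {x : Sym2 (Fin n) | x ∈ D j ∧ ¬ x.IsDiag ∧ ∀ v ∈ ends x, s v = true}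
      ends (r := 2) card_ends_le (by
        intro x hx
        rw [← Finset.card_pos, card_ends hx.2.1]
        norm_num) m with ⟨M, hM1, hM2, hM3⟩ | ⟨S, hS1, hS2⟩
    · exact absurd ⟨M, hM1, hM2, hM3⟩ (hs2 j)
    · refine ⟨S, hS1, ?_⟩
      intro u hu v hv huv huvD
      have h1 := hS2 s(u, v) ⟨huvD, by rwa [Sym2.mk_isDiag_iff], by
        intro x hx
        rw [mem_ends, Sym2.mem_iff] at hx
        rcases hx with rfl | rfl
        · exact mem_al.1 hu
        · exact mem_al.1 hv⟩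
      rw [Finset.not_disjoint_iff] at h1
      obtain ⟨x, hx1, hx2⟩ := h1
      rw [mem_ends, Sym2.mem_iff] at hx1
      rcases hx1 with rfl | rfl
      · exact Or.inl hx2
      · exact Or.inr hx2

/-- **A planted clique which properties reading few pairs do not see.** -/
theorem local_planted (e c : ℕ) (he : 1 ≤ e) : ∃ C K0 : ℕ, ∀ n k : ℕ, K0 ≤ k →
    k ≤ c * Nat.log 2 n → ∀ (κ : Type) [Fintype κ] [DecidableEq κ],
      Fintype.card κ ≤ 2 ^ (c * Nat.log 2 n) →
    ∀ (f : κ → SimpleGraph (Fin n) → Prop) (D : κ → Finset (Sym2 (Fin n))),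
    (∀ j, (D j).card ^ e * n ≤ n ^ (2 * e)) →
    (∀ j G G', (∀ u v, s(u, v) ∈ D j → (G.Adj u v ↔ G'.Adj u v)) → (f j G ↔ f j G')) →
    ∃ G : SimpleGraph (Fin n), ¬ G.CliqueFree k ∧ ∀ 𝒰 : Finset κ, C * 𝒰.card ≤ k ^ 2 →
      ∃ G' : SimpleGraph (Fin n), G'.CliqueFree k ∧ ∀ j ∈ 𝒰, (f j G ↔ f j G') := by
  obtain ⟨s, L0, hsub⟩ := sub_universe e c he
  obtain ⟨C, K0, hstar⟩ := star_planted s (c * (16 * e))
  refine ⟨C, K0 + c * L0 + 1, ?_⟩
  intro n k hk hkL κ _ _ hκ f D hD hf
  classical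
  have hcpos : 0 < c := by
    rcases Nat.eq_zero_or_pos c with h | h
    · rw [h] at hkL hk; omega
    · exact h
  have hL0 : L0 ≤ Nat.log 2 n := by
    have : c * L0 ≤ c * Nat.log 2 n := by omega
    exact Nat.le_of_mul_le_mul_left this hcpos
  obtain ⟨W, hW, hS⟩ := hsub n hL0 κ hκ D hD
  choose S hS1 hS2 using hS
  have hWpos : W.Nonempty := by
    rw [← Finset.card_pos]
    by_contra h
    have h0 : W.card = 0 := by omega
    rw [h0, Nat.log_zero_right, mul_zero] at hW
    have h1 : Nat.log 2 n = 0 := by omega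
    rw [h1] at hkL
    omega
  have : Nonempty {x // x ∈ W} := ⟨⟨_, hWpos.choose_spec⟩⟩
  have hWc : Fintype.card {x // x ∈ W} = W.card := Fintype.card_coe W
  have hcL : c * Nat.log 2 n ≤ c * (16 * e) * Nat.log 2 (Fintype.card {x // x ∈ W}) := by
    rw [hWc, mul_assoc]
    exact Nat.mul_le_mul_left c hW
  set ι : {x // x ∈ W} ↪ Fin n := Function.Embedding.subtype _ with hι
  obtain ⟨H, hH1, hH2⟩ := hstar {x // x ∈ W} k (by omega) (hkL.trans hcL) κ
    (hκ.trans (Nat.pow_le_pow_right (by norm_num) hcL))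
    (fun j H => f j (H.map ι)) (fun j => univ.filter (fun v : {x // x ∈ W} => (v : Fin n) ∈ S j))
    (by
      intro j
      refine le_trans ?_ (hS1 j)
      rw [← Finset.card_map ι]
      refine Finset.card_le_card ?_
      intro v hv
      obtain ⟨v', hv', rfl⟩ := Finset.mem_map.1 hv
      exact (Finset.mem_filter.1 hv').2)
    (by
      intro j H H' hHH
      refine hf j _ _ fun u v huv => ?_
      have key : ∀ H H' : SimpleGraph {x // x ∈ W}, (∀ u ∈ univ.filter
          (fun v : {x // x ∈ W} => (v : Fin n) ∈ S j), ∀ v, (H.Adj u v ↔ H'.Adj u v)) →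
          (H.map ι).Adj u v → (H'.map ι).Adj u v := by
        intro H H' hHH h
        rw [SimpleGraph.map_adj] at h ⊢
        obtain ⟨u', v', h1, rfl, rfl⟩ := h
        refine ⟨u', v', ?_, rfl, rfl⟩
        have hne : ι u' ≠ ι v' := fun h => h1.ne (ι.injective h)
        rcases hS2 j (ι u') u'.2 (ι v') v'.2 hne huv with h2 | h2
        · exact (hHH u' (Finset.mem_filter.2 ⟨Finset.mem_univ _, h2⟩) v').1 h1
        · exact ((hHH v' (Finset.mem_filter.2 ⟨Finset.mem_univ _, h2⟩) u').1 h1.symm).symm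
      exact ⟨key H H' hHH, key H' H fun u hu v => (hHH u hu v).symm⟩)
  refine ⟨H.map ι, ?_, ?_⟩
  · rw [SimpleGraph.cliqueFree_map_iff]
    exact hH1
  · intro 𝒰 h𝒰
    obtain ⟨H', h1, h2⟩ := hH2 𝒰 h𝒰
    refine ⟨H'.map ι, ?_, h2⟩
    rw [SimpleGraph.cliqueFree_map_iff]
    exact h1

end Pool.Agent.helper88.EW
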