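import Pool.Agent.helper88.EW.CDefs
import Pool.Agent.helper88.EW.Sub
import Pool.Agent.helper64.Depth

/-!
# Circuits with arbitrary gates become vertex juntas
-/

open Finset

namespace Pool.Agent.helper88.EW

open Pool.Agent.helper64

set_option linter.unusedSectionVars false

theorem two_pow_half (n : ℕ) : (2 : ℝ) ^ n * (1 / 2 : ℝ) ^ n = 1 := by
  rw [← mul_pow]; norm_num

/-- A function which depends on pairs in few vertices of which few are alive. -/
theorem hit_junta {V : Type} [Fintype V] [DecidableEq V] {W : Finset V}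
    {f : (Sym2 V → Bool) → Prop} (hf : Dep W.sym2 f) (m w a x : ℕ) (hW : W.card ≤ w)
    (hx : w * 2 ^ x ≤ 2 ^ a) {β : ℝ} (b0 : 0 ≤ β) (b1 : β ≤ 1) :
    Pr β ((1 / 2 : ℝ) ^ a) (fun S B => ¬ IsJ m (rst S B f)) ≤ (1 / 2 : ℝ) ^ (x * m) := by
  have hp0 : (0:ℝ) ≤ (1 / 2 : ℝ) ^ a := by positivity
  have hp1 : (1 / 2 : ℝ) ^ a ≤ 1 := pow_le_one₀ (by norm_num) (by norm_num)
  refine (Pr_mono b0 b1 hp0 hp1 (Ψ := fun S _ => m ≤ (W ∩ S).card) ?_).trans ?_
  · intro S B h
    by_contra hlt
    push Not at hlt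
    exact h ⟨W ∩ S, hlt.le, rst_dep_inter hf S B⟩
  · refine (hit_bound W m hp0 hp1).trans ?_
    rw [pow_mul]
    refine pow_le_pow_left₀ (by positivity) ?_ m
    have h1 : (W.card : ℝ) * 2 ^ x ≤ 2 ^ a := by
      have : W.card * 2 ^ x ≤ 2 ^ a := (Nat.mul_le_mul_right _ hW).trans hx
      exact_mod_cast this
    calc (W.card : ℝ) * (1 / 2 : ℝ) ^ a
        = ((W.card : ℝ) * 2 ^ x) * (1 / 2 : ℝ) ^ a * (1 / 2 : ℝ) ^ x := by
          have := two_pow_half x
          calc (W.card : ℝ) * (1 / 2 : ℝ) ^ a = (W.card : ℝ) * (1 / 2 : ℝ) ^ a * 1 := by ring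
            _ = (W.card : ℝ) * (1 / 2 : ℝ) ^ a * (2 ^ x * (1 / 2 : ℝ) ^ x) := by rw [this]
            _ = _ := by ring
      _ ≤ 2 ^ a * (1 / 2 : ℝ) ^ a * (1 / 2 : ℝ) ^ x := by gcongr
      _ = (1 / 2 : ℝ) ^ x := by rw [two_pow_half, one_mul]

theorem circ_junta : ∀ (d c c0 K : ℕ), ∃ s L0 D0 : ℕ, ∀ L : ℕ, L0 ≤ L → ∀ a b e : ℕ,
    a ≤ L → e ≤ a → L ≤ K * e → 1 ≤ b → D0 * b ≤ L →
    ∀ (V : Type) [Fintype V] [DecidableEq V] (M : ℕ), M ≤ 2 ^ (c0 * L) → ∀ q : ℕ,
    q * 2 ^ e ≤ 2 ^ a → ∀ f : SimpleGraph V → Prop, IsC M d q f →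
    Pr ((1 / 2 : ℝ) ^ b) ((1 / 2 : ℝ) ^ a) (fun S B => ¬ IsJ s (rst S B (fun x => f (toG x)))) ≤
      (1 / 2 : ℝ) ^ (c * L) := by
  intro d
  induction d with
  | zero =>
    intro c c0 K
    refine ⟨2 * (K * c), 2 * K, 0, ?_⟩
    intro L hL a b e _ hea hLe _ _ V _ _ M _ q hq f hf
    have hβ0 : (0:ℝ) ≤ (1 / 2 : ℝ) ^ b := by positivity
    have hβ1 : (1 / 2 : ℝ) ^ b ≤ 1 := pow_le_one₀ (by norm_num) (by norm_num)
    obtain ⟨D, hD, hdet⟩ := hf
    rcases Nat.eq_zero_or_pos (K * c) with hKc | hKc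
    · -- trivial
      have : c * L = 0 := by
        rcases Nat.mul_eq_zero.1 hKc with h | h
        · rw [h, zero_mul] at hLe
          rw [Nat.le_zero.1 hLe, mul_zero]
        · rw [h, zero_mul]
      rw [this, pow_zero]
      exact Pr_le_one hβ0 hβ1 (by positivity) (pow_le_one₀ (by norm_num) (by norm_num)) _
    have hK : 0 < K := Nat.pos_of_mul_pos_right hKc
    have he2 : 2 ≤ e := by
      have : K * 2 ≤ K * e := by omega
      exact Nat.le_of_mul_le_mul_left this hK
    have hdep : Dep (D.biUnion ends).sym2 (fun x : Sym2 V → Bool => f (toG x)) := by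
      intro x y hxy
      refine propext (hdet _ _ fun u v huv => ?_)
      rw [toG_adj, toG_adj, hxy]
      rw [Finset.mk_mem_sym2_iff]
      exact ⟨Finset.mem_biUnion.2 ⟨_, huv, mem_ends.2 (Sym2.mem_mk_left _ _)⟩,
        Finset.mem_biUnion.2 ⟨_, huv, mem_ends.2 (Sym2.mem_mk_right _ _)⟩⟩
    refine (hit_junta hdep (2 * (K * c)) (q * 2) a (e - 1) ?_ ?_ hβ0 hβ1).trans ?_
    · exact (Finset.card_biUnion_le_card_mul _ _ 2 fun x _ => card_ends_le x).trans
        (Nat.mul_le_mul_right 2 hD)
    · calc q * 2 * 2 ^ (e - 1) = q * 2 ^ (e - 1 + 1) := by rw [pow_succ]; ring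
        _ = q * 2 ^ e := by congr 2; omega
        _ ≤ 2 ^ a := hq
    · refine pow_le_pow_of_le_one (by norm_num) (by norm_num) ?_
      have h1 : c * L ≤ c * (K * e) := Nat.mul_le_mul_left c hLe
      have h2 : e ≤ 2 * (e - 1) := by omega
      calc c * L ≤ c * (K * e) := h1
        _ = (K * c) * e := by ring
        _ ≤ (K * c) * (2 * (e - 1)) := Nat.mul_le_mul_left _ h2
        _ = (e - 1) * (2 * (K * c)) := by ring
  | succ d ih =>
    intro c c0 K
    obtain ⟨s1, L1, D1, h1⟩ := ih (c + 1 + c0) c0 (4 * K)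
    obtain ⟨s2, L2, D2, h2⟩ := junta_or s1 0 (c + 1) (4 * K)
    obtain ⟨s3, L3, D3, h3⟩ := ih (c + 2) c0 (8 * K)
    set s4 := 16 * (K * (c + 1)) with hs4
    refine ⟨s2 + s4, L1 + L2 + L3 + 16 * K * (s3 + 1) + 1, D1 + D2 + D3, ?_⟩
    intro L hL a b e haL hea hLe hbpos hbL V _ _ M hM q hq f hf
    have hbL1 : D1 * b ≤ L := (Nat.mul_le_mul_right b (by omega)).trans hbL
    have hbL2 : D2 * b ≤ L := (Nat.mul_le_mul_right b (by omega)).trans hbL
    have hbL3 : D3 * b ≤ L := (Nat.mul_le_mul_right b (by omega)).trans hbL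
    have hKpos : 0 < K := by
      rcases Nat.eq_zero_or_pos K with h | h
      · rw [h] at hLe; omega
      · exact h
    have he16 : 16 * (s3 + 1) ≤ e := by
      have : K * (16 * (s3 + 1)) ≤ K * e := by
        calc K * (16 * (s3 + 1)) = 16 * K * (s3 + 1) := by ring
          _ ≤ L := by omega
          _ ≤ K * e := hLe
      exact Nat.le_of_mul_le_mul_left this hKpos
    set β : ℝ := (1 / 2 : ℝ) ^ b with hβ
    have hβ0 : 0 ≤ β := by positivity
    have hβ1 : β ≤ 1 := pow_le_one₀ (by norm_num) (by norm_num)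
    have hL1 : 1 ≤ L := by omega
    have e2 : (1 / 2 : ℝ) ^ ((c + 1) * L) ≤ (1 / 2 : ℝ) ^ (c * L) * (1 / 2) := by
      have : (c + 1) * L = c * L + L := by ring
      rw [this, pow_add]
      refine mul_le_mul_of_nonneg_left ?_ (by positivity)
      calc (1 / 2 : ℝ) ^ L ≤ (1 / 2 : ℝ) ^ 1 :=
            pow_le_pow_of_le_one (by norm_num) (by norm_num) hL1
        _ = 1 / 2 := by norm_num
    have hmono : ∀ {s s' : ℕ}, s ≤ s' → ∀ g : (Sym2 V → Bool) → Prop, IsJ s g → IsJ s' g := by
      rintro s s' hss g ⟨Q, hQ, hd⟩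
      exact ⟨Q, hQ.trans hss, hd⟩
    rcases hf with ⟨g, hg, hfg⟩ | ⟨t, q', g, F, hq'pos, htq, hg, hF⟩
    · -- an OR or AND gate
      set a2 := e - e / 2 with ha2'
      set a1 := a - a2 with ha1
      have ha12 : a = a1 + a2 := by omega
      have hLe1 : L ≤ 4 * K * (e / 2) := by
        calc L ≤ K * e := hLe
          _ ≤ K * (4 * (e / 2)) := Nat.mul_le_mul_left K (by omega)
          _ = 4 * K * (e / 2) := by ring
      have hLa2 : L ≤ 4 * K * a2 := by
        calc L ≤ K * e := hLe
          _ ≤ K * (4 * a2) := Nat.mul_le_mul_left K (by omega)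
          _ = 4 * K * a2 := by ring
      have hq1 : q * 2 ^ (e / 2) ≤ 2 ^ a1 := by
        have h4 : q * 2 ^ (e / 2) * 2 ^ a2 ≤ 2 ^ a1 * 2 ^ a2 := by
          rw [← pow_add, ← ha12, mul_assoc, ← pow_add]
          have : e / 2 + a2 = e := by omega
          rw [this]
          exact hq
        exact Nat.le_of_mul_le_mul_right h4 (by positivity)
      set p1 : ℝ := (1 / 2 : ℝ) ^ a1 with hp1
      set p2 : ℝ := (1 / 2 : ℝ) ^ a2 with hp2
      have hp1_0 : 0 ≤ p1 := by positivity
      have hp1_1 : p1 ≤ 1 := pow_le_one₀ (by norm_num) (by norm_num)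
      have hp2_0 : 0 ≤ p2 := by positivity
      have hp2_1 : p2 ≤ 1 := pow_le_one₀ (by norm_num) (by norm_num)
      set bad : Finset V → (Sym2 V → Bool) → Prop := fun S B =>
        ∃ i ∈ (Finset.univ : Finset (Fin M)), ¬ IsJ s1 (rst S B (fun x => g i (toG x))) with hbad
      have hstage1 : Pr β p1 bad ≤ (1 / 2 : ℝ) ^ ((c + 1) * L) := by
        refine (Pr_exists hβ0 hβ1 hp1_0 hp1_1 _ _).trans ?_
        refine (Finset.sum_le_sum fun i _ => h1 L (by omega) a1 b (e / 2) (by omega) (by omega)
          hLe1 hbpos hbL1 V M hM q hq1 (g i) (hg i)).trans ?_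
        rw [Finset.sum_const, nsmul_eq_mul, Finset.card_univ, Fintype.card_fin]
        have e : (c + 1 + c0) * L = c0 * L + (c + 1) * L := by ring
        rw [e, pow_add, ← mul_assoc]
        have : (M : ℝ) * (1 / 2 : ℝ) ^ (c0 * L) ≤ 1 := by
          calc (M : ℝ) * (1 / 2 : ℝ) ^ (c0 * L) ≤ 2 ^ (c0 * L) * (1 / 2 : ℝ) ^ (c0 * L) := by
                refine mul_le_mul_of_nonneg_right ?_ (by positivity)
                exact_mod_cast hM
            _ = 1 := two_pow_half _
        calc _ ≤ 1 * (1 / 2 : ℝ) ^ ((c + 1) * L) := mul_le_mul_of_nonneg_right this (by positivity)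
          _ = _ := one_mul _
      have key : ∀ S B, ¬ bad S B → ∀ h : Fin M → (Sym2 V → Bool) → Prop,
          (∀ i, IsJ s1 (h i)) →
          Pr β p2 (fun S' B' => ¬ IsJ s2 (rst S' B' (fun x => ∃ i, h i x))) ≤
            (1 / 2 : ℝ) ^ ((c + 1) * L) := by
        intro S B _ h hh
        choose R hR hdep using hh
        refine h2 L (by omega) a2 b hLa2 hbpos hbL2 V ∅ (by simp) (Fin M) h R hR ?_
        intro j
        rw [Finset.empty_union]
        exact hdep j
      have hstage2 : ∀ S B, ¬ bad S B →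
          Pr β p2 (fun S' B' => ¬ IsJ s2 (rst (S ∩ S') (mrg S.sym2 B' B) (fun x => f (toG x)))) ≤
            (1 / 2 : ℝ) ^ ((c + 1) * L) := by
        intro S B hb
        simp_rw [← rst_rst]
        have hJ : ∀ i, IsJ s1 (rst S B (fun x => g i (toG x))) := by
          intro i
          by_contra hcon
          exact hb ⟨i, Finset.mem_univ i, hcon⟩
        rcases hfg with hor | hand
        · have : rst S B (fun x => f (toG x)) = fun x => ∃ i, rst S B (fun x => g i (toG x)) x := by
            funext x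
            apply propext
            exact hor _
          rw [this]
          exact key S B hb _ hJ
        · have : rst S B (fun x => f (toG x)) =
              fun x => ¬ ∃ i, ¬ rst S B (fun x => g i (toG x)) x := by
            funext x
            apply propext
            rw [not_exists_not]
            exact hand _
          rw [this]
          have h3 := key S B hb (fun i x => ¬ rst S B (fun x => g i (toG x)) x)
            (fun i => (hJ i).not)
          refine le_trans (le_of_eq ?_) h3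
          congr 1
          funext S' B'
          apply propext
          rw [not_iff_not]
          exact IsJ_not_iff (f := rst S' B' (fun x => ∃ i, ¬ rst S B (fun x => g i (toG x)) x))
      have hfinal := Pr_two_stage hβ0 hβ1 hp1_0 hp1_1 hp2_0 hp2_1
        (Φ := fun S B => ¬ IsJ s2 (rst S B (fun x => f (toG x)))) (by positivity) hstage1 hstage2
      have hpp : p1 * p2 = (1 / 2 : ℝ) ^ a := by rw [hp1, hp2, ← pow_add, ← ha12]
      rw [hpp] at hfinal
      refine le_trans (Pr_mono hβ0 hβ1 (by positivity)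
        (pow_le_one₀ (by norm_num) (by norm_num)) fun S B h h' => h
          (hmono (Nat.le_add_right _ _) _ h')) (hfinal.trans ?_)
      linarith
    · -- an arbitrary gate
      rcases Nat.eq_zero_or_pos t with ht0 | htpos
      · subst ht0
        have hconst : ∀ S B, IsJ (V := V) (s2 + s4) (rst S B (fun x => f (toG x))) := by
          intro S B
          refine ⟨∅, by simp, ?_⟩
          intro x y _
          refine propext ?_
          show f (toG (mrg S.sym2 x B)) ↔ f (toG (mrg S.sym2 y B))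
          rw [hF, hF]
          have : (fun i : Fin 0 => g i (toG (mrg S.sym2 x B))) =
              (fun i : Fin 0 => g i (toG (mrg S.sym2 y B))) := by
            funext i; exact i.elim0
          rw [this]
        have : (fun S B => ¬ IsJ (s2 + s4) (rst S B (fun x => f (toG x)))) =
            fun (_ : Finset V) (_ : Sym2 V → Bool) => False := by
          funext S B
          apply propext
          simp only [iff_false, not_not]
          exact hconst S B
        rw [this, Pr_false]
        positivity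
      set y := Nat.clog 2 t with hy
      have hty : t ≤ 2 ^ y := Nat.le_pow_clog (by norm_num) t
      have hy2 : 2 ^ y ≤ 2 * t := by
        rcases Nat.lt_or_ge 1 t with h | h
        · have h5 : 2 ^ (y - 1) < t := by
            have := Nat.pow_pred_clog_lt_self (b := 2) (by norm_num) h
            exact this
          have hypos : 0 < y := Nat.clog_pos (by norm_num) h
          calc 2 ^ y = 2 * 2 ^ (y - 1) := by rw [← pow_succ']; congr 1; omega
            _ ≤ 2 * t := by omega
        · have : t = 1 := by omega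
          rw [hy, this, Nat.clog_one_right]
          norm_num
      set e1 := e / 4 with he1
      set a2 := y + e1 with ha2
      set a1 := a - a2 with ha1
      have hkey : q' * 2 ^ e1 * 2 ^ a2 ≤ 2 ^ a := by
        calc q' * 2 ^ e1 * 2 ^ a2 = q' * 2 ^ (e1 + e1) * 2 ^ y := by
              rw [ha2, pow_add, pow_add]; ring
          _ ≤ q' * 2 ^ (e1 + e1) * (2 * t) := Nat.mul_le_mul_left _ hy2
          _ = t * q' * 2 ^ (e1 + e1 + 1) := by rw [pow_succ]; ring
          _ ≤ q * 2 ^ e := Nat.mul_le_mul htq (Nat.pow_le_pow_right (by norm_num) (by omega))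
          _ ≤ 2 ^ a := hq
      have ha12le : e1 + a2 ≤ a := by
        have h5 : 2 ^ (e1 + a2) ≤ 2 ^ a := by
          calc 2 ^ (e1 + a2) = 1 * 2 ^ e1 * 2 ^ a2 := by rw [pow_add]; ring
            _ ≤ q' * 2 ^ e1 * 2 ^ a2 := by gcongr; omega
            _ ≤ 2 ^ a := hkey
        exact (Nat.pow_le_pow_iff_right (by norm_num)).1 h5
      have ha12 : a = a1 + a2 := by omega
      have hq1 : q' * 2 ^ e1 ≤ 2 ^ a1 := by
        have h4 : q' * 2 ^ e1 * 2 ^ a2 ≤ 2 ^ a1 * 2 ^ a2 := by
          rw [← pow_add 2 a1 a2, ← ha12]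
          exact hkey
        exact Nat.le_of_mul_le_mul_right h4 (by positivity)
      have hLe1 : L ≤ 8 * K * e1 := by
        calc L ≤ K * e := hLe
          _ ≤ K * (8 * e1) := Nat.mul_le_mul_left K (by omega)
          _ = 8 * K * e1 := by ring
      have htL : t ≤ 2 ^ L := by
        calc t = t * 1 := (mul_one t).symm
          _ ≤ t * q' := Nat.mul_le_mul_left t hq'pos
          _ ≤ q := htq
          _ = q * 1 := (mul_one q).symm
          _ ≤ q * 2 ^ e := Nat.mul_le_mul_left q Nat.one_le_two_pow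
          _ ≤ 2 ^ a := hq
          _ ≤ 2 ^ L := Nat.pow_le_pow_right (by norm_num) haL
      set p1 : ℝ := (1 / 2 : ℝ) ^ a1 with hp1
      set p2 : ℝ := (1 / 2 : ℝ) ^ a2 with hp2
      have hp1_0 : 0 ≤ p1 := by positivity
      have hp1_1 : p1 ≤ 1 := pow_le_one₀ (by norm_num) (by norm_num)
      have hp2_0 : 0 ≤ p2 := by positivity
      have hp2_1 : p2 ≤ 1 := pow_le_one₀ (by norm_num) (by norm_num)
      set bad : Finset V → (Sym2 V → Bool) → Prop := fun S B =>
        ∃ i ∈ (Finset.univ : Finset (Fin t)), ¬ IsJ s3 (rst S B (fun x => g i (toG x))) with hbad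
      have hstage1 : Pr β p1 bad ≤ (1 / 2 : ℝ) ^ ((c + 1) * L) := by
        refine (Pr_exists hβ0 hβ1 hp1_0 hp1_1 _ _).trans ?_
        refine (Finset.sum_le_sum fun i _ => h3 L (by omega) a1 b e1 (by omega) (by omega)
          hLe1 hbpos hbL3 V M hM q' hq1 (g i) (hg i)).trans ?_
        rw [Finset.sum_const, nsmul_eq_mul, Finset.card_univ, Fintype.card_fin]
        have e : (c + 2) * L = L + (c + 1) * L := by ring
        rw [e, pow_add, ← mul_assoc]
        have : (t : ℝ) * (1 / 2 : ℝ) ^ L ≤ 1 := by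
          calc (t : ℝ) * (1 / 2 : ℝ) ^ L ≤ 2 ^ L * (1 / 2 : ℝ) ^ L := by
                refine mul_le_mul_of_nonneg_right ?_ (by positivity)
                exact_mod_cast htL
            _ = 1 := two_pow_half _
        calc _ ≤ 1 * (1 / 2 : ℝ) ^ ((c + 1) * L) := mul_le_mul_of_nonneg_right this (by positivity)
          _ = _ := one_mul _
      have hstage2 : ∀ S B, ¬ bad S B →
          Pr β p2 (fun S' B' => ¬ IsJ s4 (rst (S ∩ S') (mrg S.sym2 B' B) (fun x => f (toG x)))) ≤
            (1 / 2 : ℝ) ^ ((c + 1) * L) := by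
        intro S B hb
        simp_rw [← rst_rst]
        have hJ : ∀ i, IsJ s3 (rst S B (fun x => g i (toG x))) := by
          intro i
          by_contra hcon
          exact hb ⟨i, Finset.mem_univ i, hcon⟩
        choose R hR hdep using hJ
        have hdepU : Dep ((Finset.univ : Finset (Fin t)).biUnion R).sym2
            (rst S B (fun x => f (toG x))) := by
          intro x z hxz
          refine propext ?_
          show f (toG (mrg S.sym2 x B)) ↔ f (toG (mrg S.sym2 z B))
          rw [hF, hF]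
          have : (fun i => g i (toG (mrg S.sym2 x B))) = (fun i => g i (toG (mrg S.sym2 z B))) := by
            funext i
            exact hdep i x z fun e he => hxz e
              (Finset.sym2_mono (Finset.subset_biUnion_of_mem R (Finset.mem_univ i)) he)
          rw [this]
        refine (hit_junta hdepU s4 (t * s3) a2 (e1 - e1 / 2) ?_ ?_ hβ0 hβ1).trans ?_
        · have := Finset.card_biUnion_le_card_mul (Finset.univ : Finset (Fin t)) R s3
            fun i _ => hR i
          rwa [Finset.card_univ, Fintype.card_fin] at this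
        · have h5 : s3 ≤ 2 ^ (e1 / 2) := by
            calc s3 ≤ e1 / 2 := by omega
              _ ≤ 2 ^ (e1 / 2) := Nat.lt_two_pow_self.le
          calc t * s3 * 2 ^ (e1 - e1 / 2) ≤ 2 ^ y * 2 ^ (e1 / 2) * 2 ^ (e1 - e1 / 2) := by gcongr
            _ = 2 ^ a2 := by rw [← pow_add, ← pow_add]; congr 1; omega
        · refine pow_le_pow_of_le_one (by norm_num) (by norm_num) ?_
          calc (c + 1) * L ≤ (c + 1) * (8 * K * e1) := Nat.mul_le_mul_left _ hLe1
            _ = (K * (c + 1)) * (8 * e1) := by ring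
            _ ≤ (K * (c + 1)) * (8 * (2 * (e1 - e1 / 2))) := by gcongr; omega
            _ = (e1 - e1 / 2) * s4 := by rw [hs4]; ring
      have hfinal := Pr_two_stage hβ0 hβ1 hp1_0 hp1_1 hp2_0 hp2_1
        (Φ := fun S B => ¬ IsJ s4 (rst S B (fun x => f (toG x)))) (by positivity) hstage1 hstage2
      have hpp : p1 * p2 = (1 / 2 : ℝ) ^ a := by rw [hp1, hp2, ← pow_add, ← ha12]
      rw [hpp] at hfinal
      refine le_trans (Pr_mono hβ0 hβ1 (by positivity)
        (pow_le_one₀ (by norm_num) (by norm_num)) fun S B h h' => h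
          (hmono (Nat.le_add_left _ _) _ h')) (hfinal.trans ?_)
      linarith

end Pool.Agent.helper88.EW
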