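import Pool.Agent.helper64.Prob

/-!
# An encoding lemma

`F` is a set of points of the cube `I → Bool`. A set `U` of coordinates is blocked at `y` by the set
`T` if no point of `F` agrees with `y` on `T`, except for one coordinate of `U` where it is `false`.
The expected number of sets `U` of `r` true coordinates of a point of `F` which are blocked by some
set of size `τ` is at most `(2 τ)^r`.
-/

open Finset

namespace Pool.Agent.helper88.EW

open Pool.Agent.helper64

set_option linter.unusedSectionVars false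

section

variable {I : Type*} [Fintype I] [DecidableEq I]

/-- `U` is blocked at `y` by `T` with respect to `F`. -/
def Blk (F : Set (I → Bool)) (T U : Finset I) (y : I → Bool) : Prop :=
  ∀ u ∈ U, ∀ z ∈ F, z u = false → ∃ i ∈ T, i ≠ u ∧ z i ≠ y i

/-- The point `M` with the coordinates of `S` made true. -/
def up (M : I → Bool) (S : Finset I) : I → Bool := fun i => if i ∈ S then true else M i

/-- The decoding procedure. -/
def dec : List (Finset I × (I → Bool)) → (I → Bool) → ℕ → Finset ((I → Bool) × Finset I)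
  | [], M, r => if r = 0 then {(M, ∅)} else ∅
  | c :: Λ, M, r =>
    if ∀ i ∈ c.1, M i = c.2 i then
      (c.1.powerset.filter (fun β => β.Nonempty ∧ β.card ≤ r)).biUnion
        (fun β => (dec Λ (up M β) (r - β.card)).image (fun p => (p.1, p.2 ∪ β)))
    else dec Λ M r

theorem sum_pow_card_le {τ : ℕ} (hτ : 0 < τ) (T : Finset I) (hT : T.card ≤ τ) (r : ℕ) :
    ∑ β ∈ T.powerset.filter (fun β => β.Nonempty ∧ β.card ≤ r), ((2 * τ : ℝ)) ^ (r - β.card) ≤
      (2 * τ : ℝ) ^ r := by
  have hτ' : (0 : ℝ) < 2 * τ := by positivity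
  have h1 : ∑ β ∈ T.powerset.filter (fun β => β.Nonempty ∧ β.card ≤ r),
      ((2 * τ : ℝ)) ^ (r - β.card) =
      (2 * τ : ℝ) ^ r * ∑ β ∈ T.powerset.filter (fun β => β.Nonempty ∧ β.card ≤ r),
        (1 / (2 * τ : ℝ)) ^ β.card := by
    rw [Finset.mul_sum]
    refine Finset.sum_congr rfl fun β hβ => ?_
    have hc : β.card ≤ r := (Finset.mem_filter.1 hβ).2.2
    rw [one_div, inv_pow, pow_sub₀ _ hτ'.ne' hc]
  rw [h1]
  have h2 : ∑ β ∈ T.powerset.filter (fun β => β.Nonempty ∧ β.card ≤ r),
      (1 / (2 * τ : ℝ)) ^ β.card ≤ 1 := by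
    have h3 : ∑ β ∈ T.powerset.filter (fun β => β.Nonempty ∧ β.card ≤ r),
        (1 / (2 * τ : ℝ)) ^ β.card + 1 ≤ ∑ β ∈ T.powerset, (1 / (2 * τ : ℝ)) ^ β.card := by
      have h4 : (∅ : Finset I) ∉ T.powerset.filter (fun β => β.Nonempty ∧ β.card ≤ r) := by
        simp
      have h5 : insert (∅ : Finset I) (T.powerset.filter (fun β => β.Nonempty ∧ β.card ≤ r)) ⊆
          T.powerset := by
        intro β hβ
        rcases Finset.mem_insert.1 hβ with rfl | hβ
        · simp
        · exact (Finset.mem_filter.1 hβ).1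
      calc _ = ∑ β ∈ insert (∅ : Finset I)
            (T.powerset.filter (fun β => β.Nonempty ∧ β.card ≤ r)),
            (1 / (2 * τ : ℝ)) ^ β.card := by
            rw [Finset.sum_insert h4]
            simp [add_comm]
        _ ≤ _ := Finset.sum_le_sum_of_subset_of_nonneg h5 fun _ _ _ => by positivity
    have h6 : ∑ β ∈ T.powerset, (1 / (2 * τ : ℝ)) ^ β.card = (1 / (2 * τ : ℝ) + 1) ^ T.card := by
      have := Finset.sum_pow_mul_eq_add_pow (1 / (2 * τ : ℝ)) 1 T
      simpa using this
    have h7 : (1 / (2 * τ : ℝ) + 1) ^ T.card ≤ 2 := by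
      calc (1 / (2 * τ : ℝ) + 1) ^ T.card ≤ (1 / (2 * τ : ℝ) + 1) ^ τ :=
            pow_le_pow_right₀ (by have : (0:ℝ) < 1 / (2 * τ : ℝ) := by positivity
                                  linarith) hT
        _ ≤ (Real.exp (1 / (2 * τ : ℝ))) ^ τ :=
            pow_le_pow_left₀ (by positivity) (Real.add_one_le_exp _) τ
        _ = Real.exp (1 / 2) := by
            rw [← Real.exp_nat_mul]
            congr 1
            field_simp
        _ ≤ 2 := by
            have h8 : Real.exp (1 / 2) ^ 2 = Real.exp 1 := by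
              rw [← Real.exp_nat_mul]; norm_num
            have h9 : Real.exp 1 < 4 := by
              have := Real.exp_one_lt_d9
              linarith
            have h10 : (0:ℝ) < Real.exp (1 / 2) := Real.exp_pos _
            nlinarith
    linarith
  calc (2 * τ : ℝ) ^ r * _ ≤ (2 * τ : ℝ) ^ r * 1 :=
        mul_le_mul_of_nonneg_left h2 (by positivity)
    _ = _ := mul_one _

theorem dec_card {τ : ℕ} (hτ : 0 < τ) : ∀ (Λ : List (Finset I × (I → Bool))),
    (∀ c ∈ Λ, c.1.card ≤ τ) → ∀ (M : I → Bool) (r : ℕ),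
    ((dec Λ M r).card : ℝ) ≤ (2 * τ : ℝ) ^ r := by
  intro Λ
  induction Λ with
  | nil =>
    intro _ M r
    unfold dec
    have h1 : (1 : ℝ) ≤ 2 * τ := by
      have : (1 : ℝ) ≤ τ := by exact_mod_cast hτ
      linarith
    split_ifs with h
    · simp [h]
    · simp only [Finset.card_empty, Nat.cast_zero]
      positivity
  | cons c Λ ih =>
    intro hΛ M r
    have ih' := ih (fun d hd => hΛ d (List.mem_cons_of_mem _ hd))
    unfold dec
    split_ifs with h
    · refine le_trans ?_ (sum_pow_card_le hτ c.1 (hΛ c List.mem_cons_self) r)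
      have h1 := Finset.card_biUnion_le
        (s := c.1.powerset.filter (fun β => β.Nonempty ∧ β.card ≤ r))
        (t := fun β => (dec Λ (up M β) (r - β.card)).image (fun p => (p.1, p.2 ∪ β)))
      have h2 : ((((c.1.powerset.filter (fun β => β.Nonempty ∧ β.card ≤ r)).biUnion
        (fun β => (dec Λ (up M β) (r - β.card)).image (fun p => (p.1, p.2 ∪ β)))).card : ℕ) : ℝ) ≤
        ∑ β ∈ c.1.powerset.filter (fun β => β.Nonempty ∧ β.card ≤ r),
          (((dec Λ (up M β) (r - β.card)).image (fun p => (p.1, p.2 ∪ β))).card : ℝ) := by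
        exact_mod_cast h1
      refine h2.trans (Finset.sum_le_sum fun β _ => ?_)
      refine le_trans ?_ (ih' (up M β) (r - β.card))
      exact_mod_cast Finset.card_image_le
    · exact ih' M r

/-- The encoding. -/
theorem enc : ∀ (Λ : List (Finset I × (I → Bool))) (y : I → Bool) (S : Finset I),
    (∀ c ∈ Λ, ∃ i ∈ c.1, y i ≠ c.2 i) →
    (∀ u ∈ S, y u = true) →
    (∀ u ∈ S, ∃ c ∈ Λ, u ∈ c.1 ∧ c.2 u = false ∧ ∀ i ∈ c.1, i ≠ u → y i = c.2 i) →
    ∃ M : I → Bool, (∀ i, i ∉ S → M i = y i) ∧ (y, S) ∈ dec Λ M S.card := by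
  intro Λ
  induction Λ with
  | nil =>
    intro y S _ _ h3
    have hS : S = ∅ := by
      rw [Finset.eq_empty_iff_forall_notMem]
      intro u hu
      obtain ⟨c, hc, -⟩ := h3 u hu
      simp at hc
    subst hS
    refine ⟨y, fun _ _ => rfl, ?_⟩
    simp [dec]
  | cons c Λ ih =>
    intro y S h1 h2 h3
    by_cases hproc : (∀ i ∈ c.1, i ∉ S → y i = c.2 i) ∧ (c.1 ∩ S).Nonempty
    · obtain ⟨hp1, hp2⟩ := hproc
      set β := c.1 ∩ S with hβ
      have hβS : β ⊆ S := Finset.inter_subset_right
      obtain ⟨M', hM'1, hM'2⟩ := ih y (S \ β)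
        (fun d hd => h1 d (List.mem_cons_of_mem _ hd))
        (fun u hu => h2 u (Finset.mem_sdiff.1 hu).1) (by
          intro u hu
          obtain ⟨huS, huβ⟩ := Finset.mem_sdiff.1 hu
          obtain ⟨d, hd, hd1, hd2, hd3⟩ := h3 u huS
          rcases List.mem_cons.1 hd with rfl | hd
          · exact absurd (Finset.mem_inter.2 ⟨hd1, huS⟩) huβ
          · exact ⟨d, hd, hd1, hd2, hd3⟩)
      refine ⟨fun i => if i ∈ β then c.2 i else M' i, ?_, ?_⟩
      · intro i hi
        have hiβ : i ∉ β := fun h => hi (hβS h)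
        simp only [hiβ, if_false]
        exact hM'1 i (fun h => hi (Finset.mem_sdiff.1 h).1)
      · have hmatch : ∀ i ∈ c.1, (if i ∈ β then c.2 i else M' i) = c.2 i := by
          intro i hi
          by_cases hiβ : i ∈ β
          · simp [hiβ]
          · have hiS : i ∉ S := fun h => hiβ (Finset.mem_inter.2 ⟨hi, h⟩)
            simp only [hiβ, if_false]
            rw [hM'1 i (fun h => hiS (Finset.mem_sdiff.1 h).1)]
            exact hp1 i hi hiS
        unfold dec
        rw [if_pos hmatch, Finset.mem_biUnion]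
        refine ⟨β, ?_, ?_⟩
        · rw [Finset.mem_filter, Finset.mem_powerset]
          exact ⟨Finset.inter_subset_left, hp2, Finset.card_le_card hβS⟩
        · rw [Finset.mem_image]
          refine ⟨(y, S \ β), ?_, ?_⟩
          · have e1 : up (fun i => if i ∈ β then c.2 i else M' i) β = M' := by
              funext i
              unfold up
              by_cases hiβ : i ∈ β
              · simp only [hiβ, if_true]
                rw [hM'1 i (fun h => (Finset.mem_sdiff.1 h).2 hiβ)]
                exact (h2 i (hβS hiβ)).symm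
              · simp [hiβ]
            have e2 : S.card - β.card = (S \ β).card := by
              rw [Finset.card_sdiff_of_subset hβS]
            rw [e1, e2]
            exact hM'2
          · simp only [Prod.mk.injEq, true_and]
            exact Finset.sdiff_union_of_subset hβS
    · -- the clause is skipped
      have hskip : ∀ u ∈ S, u ∈ c.1 → c.2 u = false →
          ¬ (∀ i ∈ c.1, i ≠ u → y i = c.2 i) := by
        intro u hu huc _ hagree
        apply hproc
        refine ⟨fun i hi hiS => hagree i hi (fun h => hiS (h ▸ hu)), ⟨u, ?_⟩⟩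
        exact Finset.mem_inter.2 ⟨huc, hu⟩
      obtain ⟨M, hM1, hM2⟩ := ih y S (fun d hd => h1 d (List.mem_cons_of_mem _ hd)) h2 (by
        intro u hu
        obtain ⟨d, hd, hd1, hd2, hd3⟩ := h3 u hu
        rcases List.mem_cons.1 hd with rfl | hd
        · exact absurd hd3 (hskip u hu hd1 hd2)
        · exact ⟨d, hd, hd1, hd2, hd3⟩)
      refine ⟨M, hM1, ?_⟩
      have hno : ¬ ∀ i ∈ c.1, M i = c.2 i := by
        intro hmatch
        by_cases hne : (c.1 ∩ S).Nonempty
        · apply hproc
          refine ⟨fun i hi hiS => ?_, hne⟩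
          rw [← hM1 i hiS]
          exact hmatch i hi
        · obtain ⟨i, hi, hyi⟩ := h1 c List.mem_cons_self
          have hiS : i ∉ S := fun h => hne ⟨i, Finset.mem_inter.2 ⟨hi, h⟩⟩
          apply hyi
          rw [← hM1 i hiS]
          exact hmatch i hi
      unfold dec
      rw [if_neg hno]
      exact hM2

theorem wt_mono {β : ℝ} (h0 : 0 ≤ β) (h1 : β ≤ 1 / 2) {M y : I → Bool}
    (h : ∀ i, M i ≠ y i → y i = true) : wt β y ≤ wt β M := by
  unfold wt
  refine Finset.prod_le_prod (fun i _ => ber_nonneg h0 (by linarith) _) fun i _ => ?_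
  by_cases hi : M i = y i
  · rw [hi]
  · have h2 := h i hi
    have h3 : M i = false := by
      cases hM : M i
      · rfl
      · rw [hM, h2] at hi; exact absurd rfl hi
    rw [h2, h3]
    simp only [ber]
    norm_num
    linarith

open Classical in
/-- **The encoding lemma.** -/
theorem blocked_le {β : ℝ} (h0 : 0 ≤ β) (h1 : β ≤ 1 / 2) (F : Set (I → Bool)) {τ : ℕ}
    (hτ : 0 < τ) (r : ℕ) :
    Ep β (fun y : I → Bool => ∑ U ∈ powersetCard r (univ : Finset I),
      ind (y ∈ F ∧ (∀ u ∈ U, y u = true) ∧ ∃ T : Finset I, T.card ≤ τ ∧ U ⊆ T ∧ Blk F T U y)) ≤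
      (2 * τ : ℝ) ^ r := by
  set good : (I → Bool) → Finset I → Prop := fun y U =>
    y ∈ F ∧ (∀ u ∈ U, y u = true) ∧ ∃ T : Finset I, T.card ≤ τ ∧ U ⊆ T ∧ Blk F T U y with hgood
  set Λ : List (Finset I × (I → Bool)) :=
    (Finset.univ.filter (fun c : Finset I × (I → Bool) => c.1.card ≤ τ ∧
      ∀ z ∈ F, ∃ i ∈ c.1, z i ≠ c.2 i)).toList with hΛ
  have hmem : ∀ c, c ∈ Λ ↔ c.1.card ≤ τ ∧ ∀ z ∈ F, ∃ i ∈ c.1, z i ≠ c.2 i := by
    intro c; simp [hΛ]
  have hcode : ∀ y U, U.card = r → good y U →
      ∃ M : I → Bool, (y, U) ∈ dec Λ M r ∧ wt β y ≤ wt β M := by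
    intro y U hU hg
    obtain ⟨hyF, hyU, T, hT, hUT, hB⟩ := hg
    obtain ⟨M, hM1, hM2⟩ := enc Λ y U (fun c hc => ((hmem c).1 hc).2 y hyF) hyU (by
      intro u hu
      refine ⟨(T, Function.update y u false), ?_, hUT hu, by simp, ?_⟩
      · rw [hmem]
        refine ⟨hT, fun z hz => ?_⟩
        by_cases hzu : z u = false
        · obtain ⟨i, hi, hiu, hne⟩ := hB u hu z hz hzu
          refine ⟨i, hi, ?_⟩
          show z i ≠ Function.update y u false i
          rw [Function.update_of_ne hiu]; exact hne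
        · refine ⟨u, hUT hu, ?_⟩
          show z u ≠ Function.update y u false u
          rw [Function.update_self]; exact hzu
      · intro i _ hiu
        simp [Function.update_of_ne hiu])
    refine ⟨M, by rw [← hU]; exact hM2, wt_mono h0 h1 fun i hi => ?_⟩
    by_cases hiU : i ∈ U
    · exact hyU i hiU
    · exact absurd (hM1 i hiU) hi
  have hwt0 : ∀ M : I → Bool, 0 ≤ wt β M := fun M => wt_nonneg h0 (by linarith) M
  -- sum over all pairs
  set P : Finset ((I → Bool) × Finset I) := univ ×ˢ powersetCard r (univ : Finset I) with hP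
  calc Ep β (fun y : I → Bool => ∑ U ∈ powersetCard r (univ : Finset I), ind (good y U))
      = ∑ p ∈ P, wt β p.1 * ind (good p.1 p.2) := by
        unfold Ep
        rw [hP, Finset.sum_product]
        exact Finset.sum_congr rfl fun y _ => by rw [Finset.mul_sum]
    _ ≤ ∑ p ∈ P, ∑ M : I → Bool, wt β M * (if p ∈ dec Λ M r then (1:ℝ) else 0) := by
        refine Finset.sum_le_sum fun p hp => ?_
        rw [hP, Finset.mem_product] at hp
        have hUc := (Finset.mem_powersetCard.1 hp.2).2
        have hnn : ∀ M ∈ (Finset.univ : Finset (I → Bool)),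
            0 ≤ wt β M * (if p ∈ dec Λ M r then (1:ℝ) else 0) := by
          intro M _
          refine mul_nonneg (hwt0 M) ?_
          split_ifs <;> norm_num
        by_cases hg : good p.1 p.2
        · rw [ind_pos hg, mul_one]
          obtain ⟨M, hM1, hM2⟩ := hcode p.1 p.2 hUc hg
          refine hM2.trans (le_trans (le_of_eq ?_) (Finset.single_le_sum hnn (Finset.mem_univ M)))
          rw [if_pos hM1, mul_one]
        · rw [ind_neg hg, mul_zero]
          exact Finset.sum_nonneg hnn
    _ = ∑ M : I → Bool, wt β M * ∑ p ∈ P, (if p ∈ dec Λ M r then (1:ℝ) else 0) := by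
        rw [Finset.sum_comm]
        exact Finset.sum_congr rfl fun M _ => by rw [Finset.mul_sum]
    _ ≤ ∑ M : I → Bool, wt β M * (2 * τ : ℝ) ^ r := by
        refine Finset.sum_le_sum fun M _ => mul_le_mul_of_nonneg_left ?_ (hwt0 M)
        refine le_trans ?_ (dec_card hτ Λ (fun c hc => ((hmem c).1 hc).1) M r)
        rw [Finset.sum_ite_mem, Finset.sum_const, nsmul_eq_mul, mul_one]
        exact_mod_cast Finset.card_le_card Finset.inter_subset_right
    _ = (2 * τ : ℝ) ^ r := by
        rw [← Finset.sum_mul, wt_sum, one_mul]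

end

end Pool.Agent.helper88.EW
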