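import Pool.Agent.helper88.EW.Dec
import Pool.Agent.helper64.Planted

/-!
# One row of a random graph with a planted clique
-/

open Finset

namespace Pool.Agent.helper88.EW

open Pool.Agent.helper64

set_option linter.unusedSectionVars false

section

variable {V : Type} [Fintype V] [DecidableEq V]

/-- The pairs which meet `Z`. -/
def inc (Z : Finset V) : Finset (Sym2 V) := univ.filter (fun e => ∃ z ∈ Z, z ∈ e)

theorem mem_inc {Z : Finset V} {e : Sym2 V} : e ∈ inc Z ↔ ∃ z ∈ Z, z ∈ e := by simp [inc]

/-- The part of the row of `u` which does not meet `Z`. -/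
def row (u : V) (Z : Finset V) : Finset (Sym2 V) := (univ \ insert u Z).image (fun y => s(u, y))

theorem mem_row {u y : V} {Z : Finset V} : s(u, y) ∈ row u Z ↔ y ∉ insert u Z := by
  unfold row
  rw [Finset.mem_image]
  constructor
  · rintro ⟨y', h1, h2⟩
    rw [Sym2.congr_right] at h2
    rw [← h2]
    exact (Finset.mem_sdiff.1 h1).2
  · intro h
    exact ⟨y, Finset.mem_sdiff.2 ⟨Finset.mem_univ _, h⟩, rfl⟩

variable {κ : Type}

/-- All facts of `E` hold with the given signs. -/
def Sat (g : κ → (Sym2 V → Bool) → Prop) (E : Finset (κ × Bool)) (x : Sym2 V → Bool) : Prop :=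
  ∀ q ∈ E, (g q.1 x ↔ q.2 = true)

/-- The vertices of `U` are blocked by `T` in the row of `u`. -/
def GB (g : κ → (Sym2 V → Bool) → Prop) (E : Finset (κ × Bool)) (u : V) (Z T U : Finset V)
    (x : Sym2 V → Bool) : Prop :=
  ∀ v ∈ U, ¬ ∃ x' : Sym2 V → Bool, Sat g E x' ∧ (∀ e, e ∉ row u Z → x' e = x e) ∧
    x' s(u, v) = false ∧ ∀ z ∈ T, z ≠ v → x' s(u, z) = x s(u, z)

/-- The event that the vertices of `U` are blocked by a set of size `τ`. -/
def Ev (g : κ → (Sym2 V → Bool) → Prop) (E : Finset (κ × Bool)) (u : V) (Z : Finset V) (τ : ℕ)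
    (U : Finset V) (x : Sym2 V → Bool) : Prop :=
  Sat g E x ∧ (∀ v ∈ U, x s(u, v) = true) ∧ ∃ T : Finset V, T.card ≤ τ ∧ U ⊆ T ∧ GB g E u Z T U x

theorem row_bound {β : ℝ} (h0 : 0 ≤ β) (h1 : β ≤ 1 / 2) (g : κ → (Sym2 V → Bool) → Prop)
    (E : Finset (κ × Bool)) (u : V) (Z : Finset V) {τ : ℕ} (hτ : 0 < τ) (r : ℕ) :
    Ep β (fun x : Sym2 V → Bool => ∑ U ∈ powersetCard r (univ \ insert u Z),
      ind (Ev g E u Z τ U x)) ≤ (2 * τ : ℝ) ^ r := by
  have hβ1 : β ≤ 1 := by linarith
  set X : Finset (Sym2 V) := (row u Z)ᶜ with hX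
  rw [← Ep_mrg β X]
  calc Ep β (fun x : Sym2 V → Bool => Ep β (fun y : Sym2 V → Bool =>
        ∑ U ∈ powersetCard r (univ \ insert u Z), ind (Ev g E u Z τ U (mrg X x y))))
      ≤ Ep β (fun _ : Sym2 V → Bool => (2 * τ : ℝ) ^ r) := by
        refine Ep_mono h0 hβ1 fun x => ?_
        set F : Set (Sym2 V → Bool) := {y | Sat g E (mrg X x y)} with hF
        refine le_trans (Ep_mono h0 hβ1 fun y => ?_) (blocked_le h0 h1 F hτ r)
        have hinj : Function.Injective (fun U : Finset V => U.image (fun y => s(u, y))) :=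
          Finset.image_injective (fun a b h => Sym2.congr_right.1 h)
        calc ∑ U ∈ powersetCard r (univ \ insert u Z), ind (Ev g E u Z τ U (mrg X x y))
            ≤ ∑ U ∈ powersetCard r (univ \ insert u Z),
              ind (y ∈ F ∧ (∀ i ∈ U.image (fun y => s(u, y)), y i = true) ∧
                ∃ T : Finset (Sym2 V), T.card ≤ τ ∧ U.image (fun y => s(u, y)) ⊆ T ∧
                  Blk F T (U.image (fun y => s(u, y))) y) := by
              refine Finset.sum_le_sum fun U hU => ind_mono ?_
              rintro ⟨hs, hU1, T, hT, hUT, hB⟩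
              have hUr : ∀ v ∈ U, s(u, v) ∉ X := by
                intro v hv
                rw [hX, Finset.mem_compl, not_not, mem_row]
                exact (Finset.mem_sdiff.1 ((Finset.mem_powersetCard.1 hU).1 hv)).2
              refine ⟨hs, ?_, T.image (fun y => s(u, y)), Finset.card_image_le.trans hT,
                Finset.image_subset_image hUT, ?_⟩
              · intro i hi
                obtain ⟨v, hv, rfl⟩ := Finset.mem_image.1 hi
                have := hU1 v hv
                simpa [mrg, hUr v hv] using this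
              · intro i hi z hz hzi
                obtain ⟨v, hv, rfl⟩ := Finset.mem_image.1 hi
                by_contra hcon
                push Not at hcon
                apply hB v hv
                refine ⟨mrg X x z, hz, ?_, ?_, ?_⟩
                · intro e he
                  have heX : e ∈ X := by rw [hX, Finset.mem_compl]; exact he
                  simp [mrg, heX]
                · simp only [mrg, hUr v hv, if_false]
                  exact hzi
                · intro w hw hwv
                  have h2 : s(u, w) ≠ s(u, v) := fun h => hwv (Sym2.congr_right.1 h)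
                  have h3 := hcon s(u, w) (Finset.mem_image_of_mem _ hw) h2
                  simp only [mrg]
                  split_ifs
                  · rfl
                  · exact h3
          _ = ∑ U' ∈ (powersetCard r (univ \ insert u Z)).image
                (fun U : Finset V => U.image (fun y => s(u, y))),
              ind (y ∈ F ∧ (∀ i ∈ U', y i = true) ∧
                ∃ T : Finset (Sym2 V), T.card ≤ τ ∧ U' ⊆ T ∧ Blk F T U' y) := by
              rw [Finset.sum_image (fun a _ b _ h => hinj h)]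
          _ ≤ _ := by
              refine Finset.sum_le_sum_of_subset_of_nonneg ?_ fun _ _ _ => ind_nonneg _
              intro U' hU'
              obtain ⟨U, hU, rfl⟩ := Finset.mem_image.1 hU'
              rw [Finset.mem_powersetCard]
              refine ⟨Finset.subset_univ _, ?_⟩
              rw [Finset.card_image_of_injective _ (fun a b h => Sym2.congr_right.1 h)]
              exact (Finset.mem_powersetCard.1 hU).2
    _ = (2 * τ : ℝ) ^ r := Ep_const _ _

/-- The planted point. -/
def pl (K : Finset V) (x : Sym2 V → Bool) : Sym2 V → Bool := fun e => if e ∈ prs K then true else x e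

/-- Change of measure. -/
theorem change {β : ℝ} (h0 : 0 ≤ β) (h1 : β ≤ 1) (K : Finset V) (X : Finset (Sym2 V))
    (Φ : (Sym2 V → Bool) → Prop) (hΦ : Dep X Φ) :
    β ^ (prs K ∩ X).card * Ep β (fun x : Sym2 V → Bool => ind (Φ (pl K x))) ≤
      Ep β (fun x : Sym2 V → Bool => ind (Φ x)) := by
  have e1 : Ep β (fun x : Sym2 V → Bool => ind (∀ e ∈ prs K ∩ X, x e = true)) =
      β ^ (prs K ∩ X).card := by
    rw [Ep_cylinder β (prs K ∩ X) (fun _ => true), Finset.prod_const]
    simp [ber]
  have e2 : Ep β (fun x : Sym2 V → Bool => ind (Φ (pl K x)) *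
      ind (∀ e ∈ prs K ∩ X, x e = true)) =
      Ep β (fun x : Sym2 V → Bool => ind (Φ (pl K x))) *
      Ep β (fun x : Sym2 V → Bool => ind (∀ e ∈ prs K ∩ X, x e = true)) := by
    refine Ep_mul_of_dep β (X := X \ prs K) (Y := prs K ∩ X) ?_ ?_ ?_
    · rw [Finset.disjoint_left]
      intro e he he'
      exact (Finset.mem_sdiff.1 he).2 (Finset.mem_inter.1 he').1
    · intro x y hxy
      have : Φ (pl K x) = Φ (pl K y) := by
        refine hΦ _ _ fun e he => ?_
        unfold pl
        by_cases h : e ∈ prs K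
        · simp [h]
        · simp only [h, if_false]
          exact hxy e (Finset.mem_sdiff.2 ⟨he, h⟩)
      simp only [this]
    · intro x y hxy
      have : (∀ e ∈ prs K ∩ X, x e = true) ↔ (∀ e ∈ prs K ∩ X, y e = true) := by
        constructor
        · intro h e he
          rw [← hxy e he]
          exact h e he
        · intro h e he
          rw [hxy e he]
          exact h e he
      exact ind_congr this
  rw [← e1, mul_comm, ← e2]
  refine Ep_mono h0 h1 fun x => ?_
  by_cases h : ∀ e ∈ prs K ∩ X, x e = true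
  · rw [ind_pos h, mul_one]
    have : Φ (pl K x) = Φ x := by
      refine hΦ _ _ fun e he => ?_
      unfold pl
      by_cases h' : e ∈ prs K
      · simp only [h', if_true]
        exact (h e (Finset.mem_inter.2 ⟨h', he⟩)).symm
      · simp [h']
    rw [this]
  · rw [ind_neg h, mul_zero]
    exact ind_nonneg _

theorem Ev_dep {g : κ → (Sym2 V → Bool) → Prop} {E : Finset (κ × Bool)} {u : V} {Z : Finset V}
    (hg : ∀ q ∈ E, Dep (inc (insert u Z)) (g q.1)) (τ : ℕ) (U : Finset V) :
    Dep (inc (insert u Z)) (Ev g E u Z τ U) := by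
  have hu : ∀ v, s(u, v) ∈ inc (insert u Z) := fun v =>
    mem_inc.2 ⟨u, Finset.mem_insert_self _ _, Sym2.mem_mk_left _ _⟩
  have hSat : ∀ x y : Sym2 V → Bool, (∀ i ∈ inc (insert u Z), x i = y i) →
      Sat g E x → Sat g E y := by
    intro x y hxy h q hq
    rw [← hg q hq x y hxy]
    exact h q hq
  have key : ∀ x y : Sym2 V → Bool, (∀ i ∈ inc (insert u Z), x i = y i) →
      Ev g E u Z τ U x → Ev g E u Z τ U y := by
    rintro x y hxy ⟨h1, h2, T, hT, hUT, h3⟩
    refine ⟨hSat x y hxy h1, fun v hv => by rw [← hxy _ (hu v)]; exact h2 v hv, T, hT, hUT, ?_⟩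
    rintro v hv ⟨y', hy1, hy2, hy3, hy4⟩
    apply h3 v hv
    refine ⟨fun e => if e ∈ inc (insert u Z) then y' e else x e, ?_, ?_, ?_, ?_⟩
    · refine hSat y' _ (fun i hi => ?_) hy1
      simp [hi]
    · intro e he
      by_cases hi : e ∈ inc (insert u Z)
      · simp only [hi, if_true]
        rw [hy2 e he, hxy e hi]
      · simp [hi]
    · simp only [hu v, if_true]
      exact hy3
    · intro z hz hzv
      simp only [hu z, if_true]
      rw [hy4 z hz hzv, hxy _ (hu z)]
  intro x y hxy
  exact propext ⟨key x y hxy, key y x (fun i hi => (hxy i hi).symm)⟩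

theorem card_prs_inc (K A : Finset V) : (prs K ∩ inc A).card ≤ A.card * K.card := by
  rw [← Finset.card_product]
  refine le_trans (Finset.card_le_card ?_) (Finset.card_image_le (s := A ×ˢ K)
    (f := fun p : V × V => s(p.1, p.2)))
  intro e he
  obtain ⟨he1, he2⟩ := Finset.mem_inter.1 he
  obtain ⟨z, hz, hze⟩ := mem_inc.1 he2
  rw [Finset.mem_image]
  obtain ⟨b, rfl⟩ := Sym2.mem_iff_exists.1 hze
  exact ⟨(z, b), Finset.mem_product.2 ⟨hz, (mem_prs.1 he1).2.1⟩, rfl⟩

theorem card_supersets (U : Finset V) (k : ℕ) (hUk : U.card ≤ k) :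
    ((powersetCard k (univ : Finset V)).filter (fun K => U ⊆ K)).card =
      (Fintype.card V - U.card).choose (k - U.card) := by
  rw [← Finset.card_univ, ← Finset.card_sdiff_of_subset (Finset.subset_univ U),
    ← Finset.card_powersetCard]
  refine Finset.card_nbij' (fun K => K \ U) (fun K => K ∪ U) ?_ ?_ ?_ ?_
  · intro K hK
    rw [Finset.mem_coe, Finset.mem_filter, Finset.mem_powersetCard] at hK
    rw [Finset.mem_coe, Finset.mem_powersetCard]
    refine ⟨Finset.sdiff_subset_sdiff (Finset.subset_univ _) (Finset.Subset.refl _), ?_⟩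
    rw [Finset.card_sdiff_of_subset hK.2, hK.1.2]
  · intro K hK
    rw [Finset.mem_coe, Finset.mem_powersetCard] at hK
    rw [Finset.mem_coe, Finset.mem_filter, Finset.mem_powersetCard]
    refine ⟨⟨Finset.subset_univ _, ?_⟩, Finset.subset_union_right⟩
    rw [Finset.card_union_of_disjoint, hK.2]
    · omega
    · rw [Finset.disjoint_left]
      intro v hv
      exact (Finset.mem_sdiff.1 (hK.1 hv)).2
  · intro K hK
    rw [Finset.mem_coe, Finset.mem_filter] at hK
    exact Finset.sdiff_union_of_subset hK.2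
  · intro K hK
    rw [Finset.mem_coe, Finset.mem_powersetCard] at hK
    ext v
    simp only [Finset.mem_sdiff, Finset.mem_union]
    constructor
    · rintro ⟨h | h, h'⟩
      · exact h
      · exact absurd h h'
    · intro h
      exact ⟨Or.inl h, (Finset.mem_sdiff.1 (hK.1 h)).2⟩

theorem choose_bound (w k : ℕ) (hkw : k ≤ w) : ∀ r : ℕ, r ≤ k →
    (w - r).choose (k - r) * w ^ r ≤ w.choose k * k ^ r := by
  intro r
  induction r with
  | zero => intro _; simp
  | succ r ih =>
    intro hr
    have h1 := ih (by omega)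
    obtain ⟨w', hw'⟩ : ∃ w', w - r = w' + 1 := ⟨w - r - 1, by omega⟩
    obtain ⟨k', hk'⟩ : ∃ k', k - r = k' + 1 := ⟨k - r - 1, by omega⟩
    have e1 : w - (r + 1) = w' := by omega
    have e2 : k - (r + 1) = k' := by omega
    rw [e1, e2]
    rw [hw', hk'] at h1
    have h2 : (w' + 1) * w'.choose k' = (w' + 1).choose (k' + 1) * (k' + 1) :=
      Nat.add_one_mul_choose_eq w' k'
    have h3 : (k' + 1) * w ≤ k * (w' + 1) := by
      have e3 : w = w' + 1 + r := by omega
      have e4 : k = k' + 1 + r := by omega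
      have e5 : k' ≤ w' := by omega
      rw [e3, e4]
      nlinarith
    have h4 : 0 < w' + 1 := Nat.succ_pos _
    refine Nat.le_of_mul_le_mul_left ?_ h4
    calc (w' + 1) * (w'.choose k' * w ^ (r + 1))
        = ((w' + 1) * w'.choose k') * (w ^ r * w) := by ring
      _ = ((w' + 1).choose (k' + 1) * w ^ r) * ((k' + 1) * w) := by rw [h2]; ring
      _ ≤ (w.choose k * k ^ r) * (k * (w' + 1)) := Nat.mul_le_mul h1 h3
      _ = (w' + 1) * (w.choose k * k ^ (r + 1)) := by ring

/-- **One row of the planted graph.** -/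
theorem row_planted {β : ℝ} (h0 : 0 < β) (h1 : β ≤ 1 / 2) (g : κ → (Sym2 V → Bool) → Prop)
    (E : Finset (κ × Bool)) (u : V) (Z : Finset V)
    (hg : ∀ q ∈ E, Dep (inc (insert u Z)) (g q.1)) {τ : ℕ} (hτ : 0 < τ) (r k : ℕ) (hrk : r ≤ k)
    (hk : k ≤ Fintype.card V) (hV : 0 < Fintype.card V) :
    ∑ K ∈ powersetCard k (univ : Finset V), Ep β (fun x : Sym2 V → Bool =>
      ind (∃ U : Finset V, U ∈ powersetCard r (univ \ insert u Z) ∧ U ⊆ K ∧
        Ev g E u Z τ U (pl K x))) ≤
      ((Fintype.card V).choose k : ℝ) * ((1 / β) ^ ((Z.card + 1) * k) *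
        (2 * τ * k / (Fintype.card V : ℝ)) ^ r) := by
  have hβ1 : β ≤ 1 := by linarith
  set w : ℝ := (Fintype.card V : ℝ) with hw
  have hw0 : 0 < w := by rw [hw]; exact_mod_cast hV
  set m := (Z.card + 1) * k with hm
  set 𝒰 := powersetCard r (univ \ insert u Z) with h𝒰
  have hstep : ∀ K ∈ powersetCard k (univ : Finset V), ∀ U : Finset V,
      Ep β (fun x : Sym2 V → Bool => ind (Ev g E u Z τ U (pl K x))) ≤
        (1 / β) ^ m * Ep β (fun x : Sym2 V → Bool => ind (Ev g E u Z τ U x)) := by
    intro K hK U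
    have hKc := (Finset.mem_powersetCard.1 hK).2
    have h2 := change h0.le hβ1 K (inc (insert u Z)) (Ev g E u Z τ U) (Ev_dep hg τ U)
    have h3 : (prs K ∩ inc (insert u Z)).card ≤ m := by
      refine (card_prs_inc K (insert u Z)).trans ?_
      rw [hKc, hm]
      exact Nat.mul_le_mul_right _ (Finset.card_insert_le _ _)
    have h4 : β ^ m ≤ β ^ (prs K ∩ inc (insert u Z)).card :=
      pow_le_pow_of_le_one h0.le hβ1 h3
    have h5 : 0 ≤ Ep β (fun x : Sym2 V → Bool => ind (Ev g E u Z τ U (pl K x))) :=
      Ep_nonneg h0.le hβ1 fun _ => ind_nonneg _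
    have h6 : β ^ m * Ep β (fun x : Sym2 V → Bool => ind (Ev g E u Z τ U (pl K x))) ≤
        Ep β (fun x : Sym2 V → Bool => ind (Ev g E u Z τ U x)) :=
      (mul_le_mul_of_nonneg_right h4 h5).trans h2
    have h7 : 0 < β ^ m := pow_pos h0 m
    rw [one_div, inv_pow, inv_mul_eq_div, le_div_iff₀ h7, mul_comm]
    exact h6
  calc _ ≤ ∑ K ∈ powersetCard k (univ : Finset V), ∑ U ∈ 𝒰,
        (if U ⊆ K then (1:ℝ) else 0) * ((1 / β) ^ m *
          Ep β (fun x : Sym2 V → Bool => ind (Ev g E u Z τ U x))) := by
        refine Finset.sum_le_sum fun K hK => ?_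
        calc _ ≤ Ep β (fun x : Sym2 V → Bool => ∑ U ∈ 𝒰,
              (if U ⊆ K then (1:ℝ) else 0) * ind (Ev g E u Z τ U (pl K x))) := by
              refine Ep_mono h0.le hβ1 fun x => ?_
              have hnn : ∀ U ∈ 𝒰, 0 ≤ (if U ⊆ K then (1:ℝ) else 0) *
                  ind (Ev g E u Z τ U (pl K x)) := by
                intro U _
                refine mul_nonneg ?_ (ind_nonneg _)
                split_ifs <;> norm_num
              by_cases h : ∃ U : Finset V, U ∈ 𝒰 ∧ U ⊆ K ∧ Ev g E u Z τ U (pl K x)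
              · obtain ⟨U, hU1, hU2, hU3⟩ := h
                rw [ind_pos ⟨U, hU1, hU2, hU3⟩]
                refine le_trans (le_of_eq ?_) (Finset.single_le_sum hnn hU1)
                rw [if_pos hU2, ind_pos hU3, mul_one]
              · rw [ind_neg h]
                exact Finset.sum_nonneg hnn
          _ = ∑ U ∈ 𝒰, (if U ⊆ K then (1:ℝ) else 0) *
                Ep β (fun x : Sym2 V → Bool => ind (Ev g E u Z τ U (pl K x))) := by
              rw [Ep_sum]
              exact Finset.sum_congr rfl fun U _ => Ep_smul _ _ _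
          _ ≤ _ := by
              refine Finset.sum_le_sum fun U _ => mul_le_mul_of_nonneg_left (hstep K hK U) ?_
              split_ifs <;> norm_num
    _ = ∑ U ∈ 𝒰, (∑ K ∈ powersetCard k (univ : Finset V), (if U ⊆ K then (1:ℝ) else 0)) *
          ((1 / β) ^ m * Ep β (fun x : Sym2 V → Bool => ind (Ev g E u Z τ U x))) := by
        rw [Finset.sum_comm]
        exact Finset.sum_congr rfl fun U _ => by rw [Finset.sum_mul]
    _ ≤ ∑ U ∈ 𝒰, (((Fintype.card V).choose k : ℝ) * (k / w) ^ r) *
          ((1 / β) ^ m * Ep β (fun x : Sym2 V → Bool => ind (Ev g E u Z τ U x))) := by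
        refine Finset.sum_le_sum fun U hU => ?_
        have hUc : U.card = r := (Finset.mem_powersetCard.1 hU).2
        refine mul_le_mul_of_nonneg_right ?_ (mul_nonneg (by positivity)
          (Ep_nonneg h0.le hβ1 fun _ => ind_nonneg _))
        rw [← Finset.sum_filter, Finset.sum_const, nsmul_eq_mul, mul_one,
          card_supersets U k (by rw [hUc]; exact hrk), hUc]
        have h2 := choose_bound (Fintype.card V) k hk r hrk
        have h3 : (((Fintype.card V - r).choose (k - r) : ℕ) : ℝ) * w ^ r ≤
            ((Fintype.card V).choose k : ℝ) * (k : ℝ) ^ r := by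
          rw [hw]; exact_mod_cast h2
        rw [div_pow, mul_div_assoc', le_div_iff₀ (by positivity)]
        exact h3
    _ = (((Fintype.card V).choose k : ℝ) * (k / w) ^ r * (1 / β) ^ m) *
          Ep β (fun x : Sym2 V → Bool => ∑ U ∈ 𝒰, ind (Ev g E u Z τ U x)) := by
        rw [Ep_sum, Finset.mul_sum]
        exact Finset.sum_congr rfl fun U _ => by ring
    _ ≤ (((Fintype.card V).choose k : ℝ) * (k / w) ^ r * (1 / β) ^ m) * (2 * τ : ℝ) ^ r := by
        refine mul_le_mul_of_nonneg_left (row_bound h0.le h1 g E u Z hτ r) (by positivity)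
    _ = _ := by
        rw [div_pow, div_pow, mul_pow]
        ring

end

end Pool.Agent.helper88.EW
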