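import Pool.Agent.helper88.EW.Row

/-!
# A planted clique which functions of few rows do not see
-/

open Finset

namespace Pool.Agent.helper88.EW

open Pool.Agent.helper64

set_option linter.unusedSectionVars false

section

variable {V : Type} [Fintype V] [DecidableEq V]

/-- Union bound over the cliques with `k - 1` vertices which are not contained in `A`. -/
theorem clique_union' (A : Finset V) {k m : ℕ} (hk : 1 ≤ k) (hA : A.card = k)
    (hm : 2 * m + 1 ≤ k - 1) {β : ℝ} (b0 : 0 ≤ β) (b1 : β ≤ 1) :
    Ep β (fun B : Sym2 V → Bool => ind (∃ Q : Finset V, Q.card = k - 1 ∧ ¬ Q ⊆ A ∧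
      ∀ e ∈ prs Q \ prs A, B e = true)) ≤
      ∑ j ∈ Finset.Icc 1 k, ((Fintype.card V : ℝ) ^ 3 * β ^ m) ^ j := by
  set 𝒦 : Finset (Finset V) :=
    (Finset.powersetCard (k - 1) (Finset.univ : Finset V)).filter (fun K => ¬ K ⊆ A) with h𝒦
  have h1 : Ep β (fun B : Sym2 V → Bool => ind (∃ Q : Finset V, Q.card = k - 1 ∧ ¬ Q ⊆ A ∧
      ∀ e ∈ prs Q \ prs A, B e = true)) ≤
      ∑ K ∈ 𝒦, β ^ (prs K \ prs A).card := by
    calc _ ≤ Ep β (fun B : Sym2 V → Bool => ∑ K ∈ 𝒦,
          ind (∀ e ∈ prs K \ prs A, B e = true)) := by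
          refine Ep_mono b0 b1 fun B => ?_
          by_cases h : ∃ Q : Finset V, Q.card = k - 1 ∧ ¬ Q ⊆ A ∧
            ∀ e ∈ prs Q \ prs A, B e = true
          · obtain ⟨K, hK1, hK2, hK3⟩ := h
            have hmem : K ∈ 𝒦 := by
              rw [h𝒦, Finset.mem_filter, Finset.mem_powersetCard]
              exact ⟨⟨Finset.subset_univ _, hK1⟩, hK2⟩
            refine le_trans (le_of_eq ?_) (Finset.single_le_sum (f := fun K : Finset V =>
              ind (∀ e ∈ prs K \ prs A, B e = true)) (fun K _ => ind_nonneg _) hmem)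
            rw [ind_pos ⟨K, hK1, hK2, hK3⟩, ind_pos hK3]
          · rw [ind_neg h]
            exact Finset.sum_nonneg fun K _ => ind_nonneg _
      _ = ∑ K ∈ 𝒦, β ^ (prs K \ prs A).card := by
          rw [Ep_sum]
          refine Finset.sum_congr rfl fun K _ => ?_
          rw [Ep_cylinder β (prs K \ prs A) (fun _ => true), Finset.prod_const]
          simp [ber]
  refine h1.trans ?_
  have hmaps : ∀ K ∈ 𝒦, (K \ A).card ∈ Finset.Icc 1 k := by
    intro K hK
    rw [h𝒦, Finset.mem_filter, Finset.mem_powersetCard] at hK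
    rw [Finset.mem_Icc]
    constructor
    · rw [Nat.one_le_iff_ne_zero, Ne, Finset.card_eq_zero, Finset.sdiff_eq_empty_iff_subset]
      exact hK.2
    · calc (K \ A).card ≤ K.card := Finset.card_le_card Finset.sdiff_subset
        _ ≤ k := by omega
  rw [← Finset.sum_fiberwise_of_maps_to hmaps]
  refine Finset.sum_le_sum fun j hj => ?_
  have hj1 : 1 ≤ j := (Finset.mem_Icc.1 hj).1
  have hcount : (𝒦.filter (fun K => (K \ A).card = j)).card ≤ (Fintype.card V ^ 3) ^ j := by
    have hinj : (𝒦.filter (fun K => (K \ A).card = j)).card ≤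
        (Finset.powersetCard (j + 1) (Finset.univ : Finset V) ×ˢ
          Finset.powersetCard j (Finset.univ : Finset V)).card := by
      refine Finset.card_le_card_of_injOn (fun K => (A \ K, K \ A)) ?_ ?_
      · intro K hK
        rw [Finset.mem_coe, Finset.mem_filter, h𝒦, Finset.mem_filter,
          Finset.mem_powersetCard] at hK
        rw [Finset.mem_coe, Finset.mem_product, Finset.mem_powersetCard, Finset.mem_powersetCard]
        refine ⟨⟨Finset.subset_univ _, ?_⟩, Finset.subset_univ _, hK.2⟩
        have e1 : (A \ K).card + (A ∩ K).card = A.card := by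
          rw [add_comm]; exact Finset.card_inter_add_card_sdiff A K
        have e2 : (K \ A).card + (K ∩ A).card = K.card := by
          rw [add_comm]; exact Finset.card_inter_add_card_sdiff K A
        have e3 : K.card = k - 1 := hK.1.1.2
        have e4 : (K \ A).card = j := hK.2
        rw [Finset.inter_comm] at e2
        show (A \ K).card = j + 1
        omega
      · intro K hK K' hK' heq
        simp only [Prod.mk.injEq] at heq
        have hrec : ∀ K : Finset V, K = (A \ (A \ K)) ∪ (K \ A) := by
          intro K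
          ext v
          simp only [Finset.mem_union, Finset.mem_sdiff]
          tauto
        rw [hrec K, hrec K', heq.1, heq.2]
    refine hinj.trans ?_
    rw [Finset.card_product, Finset.card_powersetCard, Finset.card_powersetCard, Finset.card_univ]
    rcases Nat.eq_zero_or_pos (Fintype.card V) with h0 | h0
    · rw [h0]
      rw [Nat.choose_eq_zero_of_lt (by omega : 0 < j + 1)]
      simp
    calc (Fintype.card V).choose (j + 1) * (Fintype.card V).choose j
        ≤ Fintype.card V ^ (j + 1) * Fintype.card V ^ j :=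
          Nat.mul_le_mul (Nat.choose_le_pow _ _) (Nat.choose_le_pow _ _)
      _ = Fintype.card V ^ (j + 1 + j) := by rw [pow_add _ (j + 1) j]
      _ ≤ Fintype.card V ^ (3 * j) := Nat.pow_le_pow_right h0 (by omega)
      _ = (Fintype.card V ^ 3) ^ j := by rw [pow_mul]
  calc ∑ K ∈ 𝒦.filter (fun K => (K \ A).card = j), β ^ (prs K \ prs A).card
      ≤ ∑ K ∈ 𝒦.filter (fun K => (K \ A).card = j), β ^ (m * j) := by
        refine Finset.sum_le_sum fun K hK => ?_
        rw [Finset.mem_filter, h𝒦, Finset.mem_filter, Finset.mem_powersetCard] at hK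
        apply pow_le_pow_of_le_one b0 b1
        rw [← hK.2]
        exact card_prs_sdiff hK.1.1.2 hm
    _ = ((𝒦.filter (fun K => (K \ A).card = j)).card : ℝ) * β ^ (m * j) := by
        rw [Finset.sum_const, nsmul_eq_mul]
    _ ≤ (((Fintype.card V : ℝ) ^ 3) ^ j) * β ^ (m * j) := by
        refine mul_le_mul_of_nonneg_right ?_ (by positivity)
        exact_mod_cast hcount
    _ = ((Fintype.card V : ℝ) ^ 3 * β ^ m) ^ j := by
        rw [mul_pow, ← pow_mul β m j]

/-- The vertices of the facts in `E`. -/
def ZE {κ : Type} (S : κ → Finset V) (E : Finset (κ × Bool)) : Finset V :=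
  E.biUnion (fun q => S q.1)

/-- What we want from the planted point: deterministic part of the proof. -/
theorem cut {κ : Type} [DecidableEq κ] (g : κ → (Sym2 V → Bool) → Prop) (S : κ → Finset V) (s : ℕ)
    (hS : ∀ j, (S j).card ≤ s) (hg : ∀ j, Dep (inc (S j)) (g j)) (R k τ : ℕ) (hR : 8 * R + 8 ≤ k)
    (hτ : s * k ^ 2 + k ≤ τ) (K : Finset V) (hK : K.card = k) (x : Sym2 V → Bool)
    (h1 : ∀ (u : V) (E : Finset (κ × Bool)), R * (E.card + 1) ≤ k →
      ¬ ∃ U : Finset V, U ∈ powersetCard (R * (E.card + 1)) (univ \ insert u (ZE S E)) ∧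
        U ⊆ K ∧ Ev g E u (ZE S E) τ U (pl K x))
    (h2 : ∀ Q : Finset V, Q.card = k - 1 → (∀ e ∈ prs Q \ prs K, x e = true) → Q ⊆ K)
    (𝒰 : Finset κ) (h𝒰 : 8 * ((s + R) * s + 1) * 𝒰.card ≤ k ^ 2) :
    ∃ y' : Sym2 V → Bool, (toG y').CliqueFree k ∧ ∀ j ∈ 𝒰, (g j (pl K x) ↔ g j y') := by
  classical
  set y := pl K x with hy
  -- facts seen by a vertex
  let Us : V → Finset κ := fun u => 𝒰.filter (fun j => u ∈ S j)
  let Eu : V → Finset (κ × Bool) := fun u => (Us u).image (fun j => (j, decide (g j y)))
  let Zu : V → Finset V := fun u => ZE S (Eu u)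
  set T := 𝒰.biUnion S ∪ K with hT
  have hEc : ∀ u, (Eu u).card ≤ (Us u).card := fun u => Finset.card_image_le
  have hSat : ∀ u, Sat g (Eu u) y := by
    intro u q hq
    obtain ⟨j, _, rfl⟩ := Finset.mem_image.1 hq
    simp
  have hZmem : ∀ u j, j ∈ 𝒰 → u ∈ S j → S j ⊆ Zu u := by
    intro u j hj hu z hz
    refine Finset.mem_biUnion.2 ⟨(j, decide (g j y)), ?_, hz⟩
    exact Finset.mem_image.2 ⟨j, Finset.mem_filter.2 ⟨hj, hu⟩, rfl⟩
  have hZc : ∀ u, (Zu u).card ≤ s * (Us u).card := by
    intro u
    calc (Zu u).card ≤ (Eu u).card * s := Finset.card_biUnion_le_card_mul _ _ _ fun q _ => hS q.1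
      _ ≤ (Us u).card * s := Nat.mul_le_mul_right _ (hEc u)
      _ = s * (Us u).card := mul_comm _ _
  have h𝒰k : 𝒰.card ≤ k ^ 2 := by
    refine le_trans ?_ h𝒰
    exact Nat.le_mul_of_pos_left _ (by positivity)
  have hTc : T.card ≤ τ := by
    calc T.card ≤ (𝒰.biUnion S).card + K.card := Finset.card_union_le _ _
      _ ≤ 𝒰.card * s + k := by
          rw [hK]
          exact Nat.add_le_add_right (Finset.card_biUnion_le_card_mul _ _ _ fun j _ => hS j) _
      _ ≤ s * k ^ 2 + k := by nlinarith
      _ ≤ τ := hτ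
  -- the repairing point
  let Rep : V → V → (Sym2 V → Bool) → Prop := fun u v x' =>
    Sat g (Eu u) x' ∧ (∀ e, e ∉ row u (Zu u) → x' e = y e) ∧
      x' s(u, v) = false ∧ ∀ z ∈ T, z ≠ v → x' s(u, z) = y s(u, z)
  let Bl : V → Finset V := fun u => K.filter (fun v => v ∉ insert u (Zu u) ∧ ¬ ∃ x', Rep u v x')
  have hBl : ∀ u ∈ K, (Bl u).card ≤ R * ((Us u).card + 1) := by
    intro u hu
    by_contra hcon
    push Not at hcon
    have hc1 : R * ((Eu u).card + 1) ≤ (Bl u).card := by
      have : R * ((Eu u).card + 1) ≤ R * ((Us u).card + 1) :=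
        Nat.mul_le_mul_left _ (Nat.add_le_add_right (hEc u) 1)
      omega
    obtain ⟨U, hU, hUc⟩ := Finset.exists_subset_card_eq hc1
    have hBlK : Bl u ⊆ K := Finset.filter_subset _ _
    have hle : R * ((Eu u).card + 1) ≤ k := by
      rw [← hK]
      exact hc1.trans (Finset.card_le_card hBlK)
    apply h1 u (Eu u) hle
    refine ⟨U, ?_, hU.trans hBlK, hSat u, ?_, T, hTc, ?_, ?_⟩
    · rw [Finset.mem_powersetCard]
      refine ⟨fun v hv => Finset.mem_sdiff.2 ⟨Finset.mem_univ _, ?_⟩, hUc⟩
      exact (Finset.mem_filter.1 (hU hv)).2.1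
    · intro v hv
      obtain ⟨hvK, hv1, -⟩ := Finset.mem_filter.1 (hU hv)
      have huv : u ≠ v := fun h => hv1 (by rw [h]; exact Finset.mem_insert_self _ _)
      have : s(u, v) ∈ prs K := mem_prs.2 ⟨hu, hvK, huv⟩
      rw [hy]
      simp [pl, this]
    · exact (hU.trans hBlK).trans Finset.subset_union_right
    · intro v hv
      exact (Finset.mem_filter.1 (hU hv)).2.2
  -- a good pair
  let bad : V → V → Prop := fun u v => v ∈ Zu u ∨ v ∈ Bl u
  have hpair : ∃ u ∈ K, ∃ v ∈ K, u ≠ v ∧ ¬ bad u v ∧ ¬ bad v u := by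
    by_contra hcon
    push Not at hcon
    set P := (K ×ˢ K).filter (fun p => bad p.1 p.2) with hP
    have hsub : K.offDiag ⊆ P ∪ P.image Prod.swap := by
      intro p hp
      obtain ⟨hp1, hp2, hp3⟩ := Finset.mem_offDiag.1 hp
      rw [Finset.mem_union]
      by_cases hb : bad p.1 p.2
      · left
        exact Finset.mem_filter.2 ⟨Finset.mem_product.2 ⟨hp1, hp2⟩, hb⟩
      · right
        have := hcon p.1 hp1 p.2 hp2 hp3 hb
        exact Finset.mem_image.2 ⟨(p.2, p.1), Finset.mem_filter.2
          ⟨Finset.mem_product.2 ⟨hp2, hp1⟩, this⟩, rfl⟩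
    have hc1 : k * k - k ≤ 2 * P.card := by
      calc k * k - k = K.offDiag.card := by rw [Finset.offDiag_card, hK]
        _ ≤ (P ∪ P.image Prod.swap).card := Finset.card_le_card hsub
        _ ≤ P.card + (P.image Prod.swap).card := Finset.card_union_le _ _
        _ ≤ P.card + P.card := Nat.add_le_add_left Finset.card_image_le _
        _ = 2 * P.card := by ring
    have hc2 : P.card ≤ ∑ u ∈ K, ((Zu u).card + (Bl u).card) := by
      have : P ⊆ K.biUnion (fun u => (Zu u ∪ Bl u).image (fun v => (u, v))) := by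
        intro p hp
        obtain ⟨hp1, hp2⟩ := Finset.mem_filter.1 hp
        obtain ⟨hp3, hp4⟩ := Finset.mem_product.1 hp1
        rw [Finset.mem_biUnion]
        exact ⟨p.1, hp3, Finset.mem_image.2 ⟨p.2, Finset.mem_union.2 hp2, rfl⟩⟩
      calc P.card ≤ _ := Finset.card_le_card this
        _ ≤ ∑ u ∈ K, ((Zu u ∪ Bl u).image (fun v => (u, v))).card := Finset.card_biUnion_le
        _ ≤ _ := Finset.sum_le_sum fun u _ =>
            Finset.card_image_le.trans (Finset.card_union_le _ _)
    have hc3 : ∑ u ∈ K, ((Zu u).card + (Bl u).card) ≤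
        (s + R) * (∑ u ∈ K, (Us u).card) + R * k := by
      calc _ ≤ ∑ u ∈ K, ((s + R) * (Us u).card + R) := by
            refine Finset.sum_le_sum fun u hu => ?_
            have e1 := hZc u
            have e2 := hBl u hu
            calc (Zu u).card + (Bl u).card ≤ s * (Us u).card + R * ((Us u).card + 1) :=
                  Nat.add_le_add e1 e2
              _ = (s + R) * (Us u).card + R := by ring
        _ = _ := by
            rw [Finset.sum_add_distrib, ← Finset.mul_sum, Finset.sum_const, hK, smul_eq_mul]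
            ring
    have hc4 : ∑ u ∈ K, (Us u).card ≤ s * 𝒰.card := by
      have e1 : ∀ u, (Us u).card = ∑ j ∈ 𝒰, (if u ∈ S j then 1 else 0) := by
        intro u
        rw [Finset.card_filter]
      calc ∑ u ∈ K, (Us u).card = ∑ u ∈ K, ∑ j ∈ 𝒰, (if u ∈ S j then 1 else 0) :=
            Finset.sum_congr rfl fun u _ => e1 u
        _ = ∑ j ∈ 𝒰, ∑ u ∈ K, (if u ∈ S j then 1 else 0) := Finset.sum_comm
        _ ≤ ∑ j ∈ 𝒰, s := by
            refine Finset.sum_le_sum fun j _ => ?_
            rw [← Finset.card_filter]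
            refine le_trans (Finset.card_le_card ?_) (hS j)
            intro u hu
            exact (Finset.mem_filter.1 hu).2
        _ = s * 𝒰.card := by rw [Finset.sum_const, smul_eq_mul, mul_comm]
    have hc5 : (s + R) * (∑ u ∈ K, (Us u).card) ≤ (s + R) * (s * 𝒰.card) :=
      Nat.mul_le_mul_left _ hc4
    have hc6 : 8 * ((s + R) * (s * 𝒰.card)) ≤ k ^ 2 := by
      calc 8 * ((s + R) * (s * 𝒰.card)) = 8 * ((s + R) * s) * 𝒰.card := by ring
        _ ≤ 8 * ((s + R) * s + 1) * 𝒰.card := by gcongr; omega
        _ ≤ k ^ 2 := h𝒰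
    have hc7 : 8 * (R * k) ≤ k ^ 2 := by nlinarith
    have hc8 : k * k ≤ k + 2 * P.card := by omega
    have hc9 : k * k = k ^ 2 := by ring
    have hk8 : 8 ≤ k := by omega
    have hc10 : 8 * k ≤ k ^ 2 := by nlinarith
    omega
  obtain ⟨u, huK, v, hvK, huv, hb1, hb2⟩ := hpair
  simp only [bad, not_or] at hb1 hb2
  obtain ⟨hvZ, hvB⟩ := hb1
  obtain ⟨huZ, huB⟩ := hb2
  have hv1 : v ∉ insert u (Zu u) := by
    rw [Finset.mem_insert, not_or]; exact ⟨huv.symm, hvZ⟩
  have hu1 : u ∉ insert v (Zu v) := by
    rw [Finset.mem_insert, not_or]; exact ⟨huv, huZ⟩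
  have hxu : ∃ x', Rep u v x' := by
    by_contra h
    exact hvB (Finset.mem_filter.2 ⟨hvK, hv1, h⟩)
  have hxv : ∃ x', Rep v u x' := by
    by_contra h
    exact huB (Finset.mem_filter.2 ⟨huK, hu1, h⟩)
  obtain ⟨a, ha1, ha2, ha3, ha4⟩ := hxu
  obtain ⟨b, hb1, hb2, hb3, hb4⟩ := hxv
  have hrow : ∀ (w : V) (Z : Finset V) e, e ∈ row w Z → ∃ z, e = s(w, z) := by
    intro w Z e he
    obtain ⟨z, _, rfl⟩ := Finset.mem_image.1 he
    exact ⟨z, rfl⟩
  set y' : Sym2 V → Bool := fun e => if e = s(u, v) then false else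
    if e ∈ row u (Zu u) then a e else if e ∈ row v (Zu v) then b e else y e with hy'
  have hsame : ∀ e, u ∉ e → v ∉ e → y' e = y e := by
    intro e he1 he2
    have n1 : e ≠ s(u, v) := fun h => he1 (h ▸ Sym2.mem_mk_left _ _)
    have n2 : e ∉ row u (Zu u) := by
      intro h
      obtain ⟨z, rfl⟩ := hrow _ _ _ h
      exact he1 (Sym2.mem_mk_left _ _)
    have n3 : e ∉ row v (Zu v) := by
      intro h
      obtain ⟨z, rfl⟩ := hrow _ _ _ h
      exact he2 (Sym2.mem_mk_left _ _)
    simp [hy', n1, n2, n3]
  refine ⟨y', ?_, ?_⟩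
  · intro Q hQ
    have hQc := hQ.card_eq
    have hcl : ∀ p ∈ Q, ∀ q ∈ Q, p ≠ q → y' s(p, q) = true := by
      intro p hp q hq hpq
      have := hQ.isClique hp hq hpq
      rw [toG_adj] at this
      exact this.1
    have hnot : ¬ (u ∈ Q ∧ v ∈ Q) := by
      rintro ⟨h3, h4⟩
      have := hcl u h3 v h4 huv
      simp [hy'] at this
    have hbig : k - 1 ≤ (Q \ {u, v}).card := by
      by_cases h3 : u ∈ Q
      · have h4 : v ∉ Q := fun h => hnot ⟨h3, h⟩
        have : Q \ {u, v} = Q.erase u := by
          ext z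
          simp only [Finset.mem_sdiff, Finset.mem_insert, Finset.mem_singleton, Finset.mem_erase]
          constructor
          · rintro ⟨h5, h6⟩; exact ⟨fun h => h6 (Or.inl h), h5⟩
          · rintro ⟨h5, h6⟩
            refine ⟨h6, ?_⟩
            rintro (h | h)
            · exact h5 h
            · exact h4 (h ▸ h6)
        rw [this, Finset.card_erase_of_mem h3, hQc]
      · have : Q \ {u, v} ⊇ Q.erase v := by
          intro z hz
          rw [Finset.mem_erase] at hz
          rw [Finset.mem_sdiff]
          refine ⟨hz.2, ?_⟩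
          rw [Finset.mem_insert, Finset.mem_singleton]
          rintro (h | h)
          · exact h3 (h ▸ hz.2)
          · exact hz.1 h
        refine le_trans ?_ (Finset.card_le_card this)
        rw [← hQc]
        exact Finset.pred_card_le_card_erase
    obtain ⟨Q', hQ', hQ'c⟩ := Finset.exists_subset_card_eq hbig
    have hsubK : Q' ⊆ K := by
      refine h2 Q' hQ'c ?_
      intro e he
      obtain ⟨he1, he2⟩ := Finset.mem_sdiff.1 he
      induction e using Sym2.ind with
      | _ p q =>
        obtain ⟨hp, hq, hpq⟩ := mem_prs.1 he1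
        have hp' := Finset.mem_sdiff.1 (hQ' hp)
        have hq' := Finset.mem_sdiff.1 (hQ' hq)
        rw [Finset.mem_insert, Finset.mem_singleton] at hp' hq'
        have h3 := hcl p hp'.1 q hq'.1 hpq
        have nu : u ∉ s(p, q) := by
          rw [Sym2.mem_iff]
          rintro (h | h)
          · exact hp'.2 (Or.inl h.symm)
          · exact hq'.2 (Or.inl h.symm)
        have nv : v ∉ s(p, q) := by
          rw [Sym2.mem_iff]
          rintro (h | h)
          · exact hp'.2 (Or.inr h.symm)
          · exact hq'.2 (Or.inr h.symm)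
        rw [hsame _ nu nv] at h3
        simp only [hy, pl, he2, if_false] at h3
        exact h3
    have hsub2 : Q' ⊆ K \ {u, v} := by
      intro z hz
      rw [Finset.mem_sdiff]
      exact ⟨hsubK hz, (Finset.mem_sdiff.1 (hQ' hz)).2⟩
    have h5 := Finset.card_le_card hsub2
    have h6 : ({u, v} : Finset V) ⊆ K := by
      intro z hz
      rw [Finset.mem_insert, Finset.mem_singleton] at hz
      rcases hz with rfl | rfl
      · exact huK
      · exact hvK
    rw [Finset.card_sdiff_of_subset h6, Finset.card_pair huv, hK, hQ'c] at h5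
    omega
  · intro j hj
    have hjT : ∀ z ∈ S j, z ∈ T := fun z hz =>
      Finset.mem_union_left _ (Finset.mem_biUnion.2 ⟨j, hj, hz⟩)
    by_cases hju : u ∈ S j
    · have hvS : v ∉ S j := fun h => hvZ (hZmem u j hj hju h)
      have hmem : (j, decide (g j y)) ∈ Eu u :=
        Finset.mem_image.2 ⟨j, Finset.mem_filter.2 ⟨hj, hju⟩, rfl⟩
      have e1 := ha1 _ hmem
      have e2 : g j y' = g j a := by
        refine hg j _ _ fun e he => ?_
        obtain ⟨z, hz, hze⟩ := mem_inc.1 he
        by_cases c1 : e = s(u, v)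
        · subst c1
          simp only [hy', if_true]
          exact ha3.symm
        by_cases c2 : e ∈ row u (Zu u)
        · simp [hy', c1, c2]
        by_cases c3 : e ∈ row v (Zu v)
        · simp only [hy', c1, c2, c3, if_true, if_false]
          rw [ha2 e c2]
          obtain ⟨z', rfl⟩ := hrow _ _ _ c3
          rw [Sym2.mem_iff] at hze
          have hz' : z' = z := by
            rcases hze with h | h
            · exact absurd (h ▸ hz) hvS
            · exact h.symm
          subst hz'
          refine hb4 z' (hjT z' hz) ?_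
          intro h
          apply c1
          rw [h, Sym2.eq_swap]
        · simp only [hy', c1, c2, c3, if_false]
          exact (ha2 e c2).symm
      rw [e2]
      simp only [decide_eq_true_eq] at e1
      exact e1.symm
    by_cases hjv : v ∈ S j
    · have hmem : (j, decide (g j y)) ∈ Eu v :=
        Finset.mem_image.2 ⟨j, Finset.mem_filter.2 ⟨hj, hjv⟩, rfl⟩
      have e1 := hb1 _ hmem
      have e2 : g j y' = g j b := by
        refine hg j _ _ fun e he => ?_
        obtain ⟨z, hz, hze⟩ := mem_inc.1 he
        by_cases c1 : e = s(u, v)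
        · subst c1
          simp only [hy', if_true]
          rw [Sym2.eq_swap] 
          exact hb3.symm
        by_cases c2 : e ∈ row u (Zu u)
        · simp only [hy', c1, c2, if_true, if_false]
          obtain ⟨z', rfl⟩ := hrow _ _ _ c2
          rw [Sym2.mem_iff] at hze
          have hz' : z' = z := by
            rcases hze with h | h
            · exact absurd (h ▸ hz) hju
            · exact h.symm
          subst hz'
          have hne : z' ≠ v := fun h => c1 (by rw [h])
          rw [ha4 z' (hjT z' hz) hne]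
          symm
          apply hb2
          intro h
          obtain ⟨z'', hz''⟩ := hrow _ _ _ h
          rw [Sym2.eq_iff] at hz''
          rcases hz'' with ⟨h3, -⟩ | ⟨-, h3⟩
          · exact huv h3
          · exact hne h3
        by_cases c3 : e ∈ row v (Zu v)
        · simp [hy', c1, c2, c3]
        · simp only [hy', c1, c2, c3, if_false]
          exact (hb2 e c3).symm
      rw [e2]
      simp only [decide_eq_true_eq] at e1
      exact e1.symm
    · have e2 : g j y' = g j y := by
        refine hg j _ _ fun e he => ?_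
        obtain ⟨z, hz, hze⟩ := mem_inc.1 he
        have hzu : z ≠ u := fun h => hju (h ▸ hz)
        have hzv : z ≠ v := fun h => hjv (h ▸ hz)
        by_cases c1 : e = s(u, v)
        · subst c1
          rw [Sym2.mem_iff] at hze
          rcases hze with h | h
          · exact absurd h hzu
          · exact absurd h hzv
        by_cases c2 : e ∈ row u (Zu u)
        · simp only [hy', c1, c2, if_true, if_false]
          obtain ⟨z', rfl⟩ := hrow _ _ _ c2
          rw [Sym2.mem_iff] at hze
          rcases hze with h | h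
          · exact absurd h hzu
          · subst h
            exact ha4 z (hjT z hz) hzv
        by_cases c3 : e ∈ row v (Zu v)
        · simp only [hy', c1, c2, c3, if_true, if_false]
          obtain ⟨z', rfl⟩ := hrow _ _ _ c3
          rw [Sym2.mem_iff] at hze
          rcases hze with h | h
          · exact absurd h hzv
          · subst h
            exact hb4 z (hjT z hz) hzu
        · simp [hy', c1, c2, c3]
      rw [e2]

end

end Pool.Agent.helper88.EW
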