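import Pool.Agent.helper88.EW.Star

/-!
# Existence of the planted clique which functions of few rows do not see
-/

open Finset

namespace Pool.Agent.helper88.EW

open Pool.Agent.helper64

set_option linter.unusedSectionVars false

theorem exists_fourth_le (C : ℕ) :
    ∃ L0 : ℕ, ∀ L : ℕ, L0 ≤ L → (C * L) ^ 4 ≤ 2 ^ (L - L / 2) := by
  obtain ⟨L0, h⟩ := exists_sq_le_two_pow' C 8
  refine ⟨L0 + 8, fun L hL => ?_⟩
  have h1 := h L (by omega) (L / 4) (by omega)
  calc (C * L) ^ 4 = ((C * L) ^ 2) ^ 2 := by ring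
    _ ≤ (2 ^ (L / 4)) ^ 2 := Nat.pow_le_pow_left h1 2
    _ = 2 ^ (L / 4 * 2) := by rw [← pow_mul]
    _ ≤ 2 ^ (L - L / 2) := Nat.pow_le_pow_right (by norm_num) (by omega)

theorem star_planted (s c : ℕ) : ∃ C K0 : ℕ, ∀ (V : Type) [Fintype V] [DecidableEq V] (k : ℕ),
    K0 ≤ k → k ≤ c * Nat.log 2 (Fintype.card V) →
    ∀ (κ : Type) [Fintype κ] [DecidableEq κ],
      Fintype.card κ ≤ 2 ^ (c * Nat.log 2 (Fintype.card V)) →
    ∀ (f : κ → SimpleGraph V → Prop) (S : κ → Finset V), (∀ j, (S j).card ≤ s) →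
    (∀ j G G', (∀ u ∈ S j, ∀ v, (G.Adj u v ↔ G'.Adj u v)) → (f j G ↔ f j G')) →
    ∃ G : SimpleGraph V, ¬ G.CliqueFree k ∧ ∀ 𝒰 : Finset κ, C * 𝒰.card ≤ k ^ 2 →
      ∃ G' : SimpleGraph V, G'.CliqueFree k ∧ ∀ j ∈ 𝒰, (f j G ↔ f j G') := by
  set a0 := 32 + c with ha0
  set Q := a0 * (s + 1) + c + 4 with hQ
  set R := 4 * Q with hR
  obtain ⟨L1, hL1⟩ := exists_fourth_le (2 * (s + 1) * (c + 1) * (c + 1) * (c + 1))
  refine ⟨8 * ((s + R) * s + 1), 8 * R + 8 + c * (L1 + 8) + c, ?_⟩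
  intro V _ _ k hk0 hkL κ _ _ hκ f S hS hf
  classical
  set w := Fintype.card V with hw
  set L := Nat.log 2 w with hL
  have hcpos : 0 < c := by
    rcases Nat.eq_zero_or_pos c with h | h
    · rw [h] at hkL hk0; omega
    · exact h
  have hLbig : L1 + 8 ≤ L := by
    have : c * (L1 + 8) ≤ c * L := by omega
    exact Nat.le_of_mul_le_mul_left this hcpos
  have hk8 : 8 * R + 8 ≤ k := by omega
  have hw0 : w ≠ 0 := by
    intro h
    rw [h] at hL
    simp at hL
    omega
  have hwpos : 0 < w := Nat.pos_of_ne_zero hw0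
  have hw1 : 2 ^ L ≤ w := Nat.pow_log_le_self 2 hw0
  have hw2 : w < 2 ^ (L + 1) := Nat.lt_pow_succ_log_self (by norm_num) w
  -- parameters
  set m := (k - 2) / 2 with hm
  have hmk : 2 * m + 1 ≤ k - 1 := by omega
  have hm4 : k ≤ 4 * m := by omega
  have hmpos : 0 < m := by omega
  set b := 8 * L / m + 1 with hb
  have hb1 : 1 ≤ b := Nat.le_add_left 1 _
  have hbm : 8 * L ≤ b * m := by
    have h1 := Nat.div_add_mod (8 * L) m
    have h2 := Nat.mod_lt (8 * L) hmpos
    have h3 : b * m = m * (8 * L / m) + m := by rw [hb]; ring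
    rw [h3]
    omega
  have hbk : b * k ≤ a0 * L := by
    have h1 : m * (8 * L / m) ≤ 8 * L := Nat.mul_div_le _ _
    calc b * k = (8 * L / m) * k + k := by rw [hb]; ring
      _ ≤ (8 * L / m) * (4 * m) + c * L := Nat.add_le_add (Nat.mul_le_mul_left _ hm4) hkL
      _ = 4 * (m * (8 * L / m)) + c * L := by ring
      _ ≤ 4 * (8 * L) + c * L := Nat.add_le_add_right (Nat.mul_le_mul_left 4 h1) _
      _ = a0 * L := by rw [ha0]; ring
  set β : ℝ := (1 / 2 : ℝ) ^ b with hβ
  have hβ0 : 0 < β := by positivity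
  have hβ2 : β ≤ 1 / 2 := by
    calc β ≤ (1 / 2 : ℝ) ^ 1 := pow_le_pow_of_le_one (by norm_num) (by norm_num) hb1
      _ = 1 / 2 := pow_one _
  have hβ1 : β ≤ 1 := by linarith
  set τ := s * k ^ 2 + k with hτ
  have hτpos : 0 < τ := by omega
  have hLpos : 1 ≤ L := by omega
  have hτk : 2 * τ * k ≤ 2 ^ (L - L / 2) := by
    refine le_trans ?_ (hL1 L (by omega))
    have h1 : τ ≤ (s + 1) * k ^ 2 := by
      have : k ≤ k ^ 2 := Nat.le_self_pow two_ne_zero k
      calc τ = s * k ^ 2 + k := hτ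
        _ ≤ s * k ^ 2 + k ^ 2 := Nat.add_le_add_left this _
        _ = (s + 1) * k ^ 2 := by ring
    have h2 : k ≤ (c + 1) * L := hkL.trans (Nat.mul_le_mul_right L (by omega))
    have h3 : 1 ≤ 2 * (s + 1) * (c + 1) * (c + 1) * (c + 1) * L := by
      have : 0 < 2 * (s + 1) * (c + 1) * (c + 1) * (c + 1) * L := by positivity
      omega
    set X := 2 * (s + 1) * (c + 1) * (c + 1) * (c + 1) with hX
    have hXpos : 1 ≤ X := by
      have : 0 < X := by rw [hX]; positivity
      omega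
    calc 2 * τ * k ≤ 2 * ((s + 1) * k ^ 2) * k := by gcongr
      _ = 2 * (s + 1) * k ^ 3 := by ring
      _ ≤ 2 * (s + 1) * ((c + 1) * L) ^ 3 := by gcongr
      _ = X * L ^ 3 := by rw [hX]; ring
      _ ≤ X ^ 4 * L ^ 4 := Nat.mul_le_mul (Nat.le_self_pow (by norm_num) X)
          (Nat.pow_le_pow_right (by omega) (by norm_num))
      _ = (X * L) ^ 4 := by ring
  have hkw : k ≤ w := by
    have h1 : k ≤ 2 * τ * k := Nat.le_mul_of_pos_left k (by omega)
    calc k ≤ 2 ^ (L - L / 2) := h1.trans hτk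
      _ ≤ 2 ^ L := Nat.pow_le_pow_right (by norm_num) (by omega)
      _ ≤ w := hw1
  have hk2L : k ≤ 2 ^ L := by
    have h1 : k ≤ 2 * τ * k := Nat.le_mul_of_pos_left k (by omega)
    exact (h1.trans hτk).trans (Nat.pow_le_pow_right (by norm_num) (by omega))
  -- the functions on the cube
  set g : κ → (Sym2 V → Bool) → Prop := fun j x => f j (toG x) with hg
  have hgd : ∀ j, Dep (inc (S j)) (g j) := by
    intro j x y hxy
    refine propext (hf j _ _ fun u hu v => ?_)
    rw [toG_adj, toG_adj, hxy s(u, v) (mem_inc.2 ⟨u, hu, Sym2.mem_mk_left _ _⟩)]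
  -- the bad events
  set bad1 : Finset V → (Sym2 V → Bool) → Prop := fun K x =>
    ∃ p ∈ (univ : Finset V) ×ˢ (univ.filter (fun E : Finset (κ × Bool) => R * (E.card + 1) ≤ k)),
      ∃ U : Finset V, U ∈ powersetCard (R * (p.2.card + 1)) (univ \ insert p.1 (ZE S p.2)) ∧
        U ⊆ K ∧ Ev g p.2 p.1 (ZE S p.2) τ U (pl K x) with hbad1
  set bad2 : Finset V → (Sym2 V → Bool) → Prop := fun K x =>
    ∃ Q : Finset V, Q.card = k - 1 ∧ ¬ Q ⊆ K ∧ ∀ e ∈ prs Q \ prs K, x e = true with hbad2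
  set N : ℝ := (w.choose k : ℝ) with hN
  have hNpos : 0 < N := by
    rw [hN]
    exact_mod_cast Nat.choose_pos hkw
  have hwR1 : (2 : ℝ) ^ L ≤ w := by exact_mod_cast hw1
  have hwR2 : (w : ℝ) ≤ 2 ^ (L + 1) := by exact_mod_cast hw2.le
  have hhalf : ∀ n : ℕ, (0:ℝ) < (1 / 2 : ℝ) ^ n := fun n => by positivity
  have h2half : ∀ n : ℕ, (2 : ℝ) ^ n * (1 / 2 : ℝ) ^ n = 1 := fun n => by
    rw [← mul_pow]; norm_num
  -- the first bad event
  have hE1 : ∀ p ∈ (univ : Finset V) ×ˢ
      (univ.filter (fun E : Finset (κ × Bool) => R * (E.card + 1) ≤ k)),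
      ∑ K ∈ powersetCard k (univ : Finset V), Ep β (fun x : Sym2 V → Bool =>
        ind (∃ U : Finset V, U ∈ powersetCard (R * (p.2.card + 1))
          (univ \ insert p.1 (ZE S p.2)) ∧ U ⊆ K ∧ Ev g p.2 p.1 (ZE S p.2) τ U (pl K x))) ≤
      N * ((1 / 2 : ℝ) ^ ((c + 4) * L) * ((1 / 2 : ℝ) ^ ((c + 4) * L)) ^ p.2.card) := by
    rintro ⟨u, E⟩ hp
    have hRk : R * (E.card + 1) ≤ k := (Finset.mem_filter.1 (Finset.mem_product.1 hp).2).2
    set t := E.card with ht
    have hZ : (ZE S E).card ≤ s * t := by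
      rw [mul_comm]
      exact Finset.card_biUnion_le_card_mul _ _ _ fun q _ => hS q.1
    have h1 := row_planted hβ0 hβ2 g E u (ZE S E) (by
      intro q hq x y hxy
      refine hgd q.1 x y fun e he => hxy e ?_
      obtain ⟨z, hz, hze⟩ := mem_inc.1 he
      exact mem_inc.2 ⟨z, Finset.mem_insert_of_mem (Finset.mem_biUnion.2 ⟨q, hq, hz⟩), hze⟩)
      hτpos (R * (t + 1)) k hRk hkw hwpos
    refine h1.trans (mul_le_mul_of_nonneg_left ?_ hNpos.le)
    have h2 : (1 / β) ^ (((ZE S E).card + 1) * k) ≤ 2 ^ ((s * t + 1) * (a0 * L)) := by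
      have e1 : 1 / β = 2 ^ b := by
        rw [hβ, one_div, one_div, inv_pow, inv_inv]
      rw [e1, ← pow_mul]
      refine pow_le_pow_right₀ (by norm_num) ?_
      calc b * (((ZE S E).card + 1) * k) = ((ZE S E).card + 1) * (b * k) := by ring
        _ ≤ (s * t + 1) * (a0 * L) := Nat.mul_le_mul (by omega) hbk
    have h3 : 2 * (τ : ℝ) * k / (w : ℝ) ≤ (1 / 2 : ℝ) ^ (L / 2) := by
      rw [div_le_iff₀ (by exact_mod_cast hwpos)]
      have e1 : 2 * (τ : ℝ) * k ≤ 2 ^ (L - L / 2) := by exact_mod_cast hτk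
      have e2 : (2 : ℝ) ^ L = 2 ^ (L / 2) * 2 ^ (L - L / 2) := by
        rw [← pow_add]; congr 1; omega
      calc 2 * (τ : ℝ) * k ≤ 2 ^ (L - L / 2) := e1
        _ = (1 / 2 : ℝ) ^ (L / 2) * 2 ^ L := by
            rw [e2, ← mul_assoc, mul_comm ((1 / 2 : ℝ) ^ (L / 2)), h2half, one_mul]
        _ ≤ (1 / 2 : ℝ) ^ (L / 2) * w := mul_le_mul_of_nonneg_left hwR1 (hhalf _).le
    have h4 : (2 * (τ : ℝ) * k / (w : ℝ)) ^ (R * (t + 1)) ≤ (1 / 2 : ℝ) ^ (L * Q * (t + 1)) := by
      calc (2 * (τ : ℝ) * k / (w : ℝ)) ^ (R * (t + 1))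
          ≤ ((1 / 2 : ℝ) ^ (L / 2)) ^ (R * (t + 1)) :=
            pow_le_pow_left₀ (by positivity) h3 _
        _ = (1 / 2 : ℝ) ^ ((L / 2) * (R * (t + 1))) := by rw [← pow_mul]
        _ ≤ (1 / 2 : ℝ) ^ (L * Q * (t + 1)) := by
            refine pow_le_pow_of_le_one (by norm_num) (by norm_num) ?_
            calc L * Q * (t + 1) ≤ (4 * (L / 2)) * Q * (t + 1) := by gcongr; omega
              _ = (L / 2) * (R * (t + 1)) := by rw [hR]; ring
    have h5 : (s * t + 1) * (a0 * L) + ((c + 4) * L + (c + 4) * L * t) ≤ L * Q * (t + 1) := by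
      rw [hQ]
      have : L * (a0 * (s + 1) + c + 4) * (t + 1) = (s * t + 1) * (a0 * L) +
        ((c + 4) * L + (c + 4) * L * t) + a0 * L * (s + t) := by ring
      omega
    calc (1 / β) ^ (((ZE S E).card + 1) * k) * (2 * (τ : ℝ) * k / (w : ℝ)) ^ (R * (t + 1))
        ≤ 2 ^ ((s * t + 1) * (a0 * L)) * (1 / 2 : ℝ) ^ (L * Q * (t + 1)) :=
          mul_le_mul h2 h4 (by positivity) (by positivity)
      _ ≤ 2 ^ ((s * t + 1) * (a0 * L)) * (1 / 2 : ℝ) ^ ((s * t + 1) * (a0 * L) +
          ((c + 4) * L + (c + 4) * L * t)) := by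
          refine mul_le_mul_of_nonneg_left ?_ (by positivity)
          exact pow_le_pow_of_le_one (by norm_num) (by norm_num) h5
      _ = (1 / 2 : ℝ) ^ ((c + 4) * L) * ((1 / 2 : ℝ) ^ ((c + 4) * L)) ^ t := by
          rw [pow_add (1 / 2 : ℝ) ((s * t + 1) * (a0 * L)), ← mul_assoc, h2half, one_mul,
            pow_add, pow_mul (1 / 2 : ℝ) ((c + 4) * L) t]
  have hsum1 : ∑ K ∈ powersetCard k (univ : Finset V),
      Ep β (fun x : Sym2 V → Bool => ind (bad1 K x)) ≤ N * (1 / 4) := by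
    set ξ : ℝ := (1 / 2 : ℝ) ^ ((c + 4) * L) with hξ
    have hξ0 : 0 < ξ := hhalf _
    calc _ ≤ ∑ K ∈ powersetCard k (univ : Finset V), ∑ p ∈ (univ : Finset V) ×ˢ
          (univ.filter (fun E : Finset (κ × Bool) => R * (E.card + 1) ≤ k)),
          Ep β (fun x : Sym2 V → Bool =>
          ind (∃ U : Finset V, U ∈ powersetCard (R * (p.2.card + 1))
          (univ \ insert p.1 (ZE S p.2)) ∧ U ⊆ K ∧ Ev g p.2 p.1 (ZE S p.2) τ U (pl K x))) := by
          refine Finset.sum_le_sum fun K _ => ?_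
          rw [← Ep_sum]
          refine Ep_mono hβ0.le hβ1 fun x => ?_
          by_cases h : bad1 K x
          · rw [ind_pos h]
            obtain ⟨p, hp, hU⟩ := h
            refine le_trans (le_of_eq ?_) (Finset.single_le_sum (fun _ _ => ind_nonneg _) hp)
            rw [ind_pos hU]
          · rw [ind_neg h]
            exact Finset.sum_nonneg fun _ _ => ind_nonneg _
      _ ≤ ∑ p ∈ (univ : Finset V) ×ˢ
          (univ.filter (fun E : Finset (κ × Bool) => R * (E.card + 1) ≤ k)),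
          N * (ξ * ξ ^ p.2.card) := by
          rw [Finset.sum_comm]
          exact Finset.sum_le_sum hE1
      _ ≤ ∑ p ∈ (univ : Finset V) ×ˢ (univ : Finset (Finset (κ × Bool))),
          N * (ξ * ξ ^ p.2.card) := by
          refine Finset.sum_le_sum_of_subset_of_nonneg ?_ fun _ _ _ => by positivity
          exact Finset.product_subset_product_right (Finset.filter_subset _ _)
      _ = N * (w * ξ * (ξ + 1) ^ (Fintype.card (κ × Bool))) := by
          rw [Finset.sum_product]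
          have e1 := Finset.sum_pow_mul_eq_add_pow ξ 1 (univ : Finset (κ × Bool))
          rw [Finset.powerset_univ, Finset.card_univ] at e1
          simp only [one_pow, mul_one] at e1
          show ∑ _x : V, ∑ E : Finset (κ × Bool), N * (ξ * ξ ^ E.card) = _
          rw [← e1, Finset.sum_const, Finset.card_univ, nsmul_eq_mul, Finset.mul_sum,
            Finset.mul_sum, Finset.mul_sum]
          refine Finset.sum_congr rfl fun E _ => ?_
          rw [hw]; ring
      _ ≤ N * (1 / 4) := by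
          refine mul_le_mul_of_nonneg_left ?_ hNpos.le
          have e2 : (ξ + 1) ^ (Fintype.card (κ × Bool)) ≤ 3 := by
            calc (ξ + 1) ^ (Fintype.card (κ × Bool))
                ≤ (Real.exp ξ) ^ (Fintype.card (κ × Bool)) :=
                  pow_le_pow_left₀ (by positivity) (Real.add_one_le_exp _) _
              _ = Real.exp ((Fintype.card (κ × Bool) : ℝ) * ξ) := by rw [← Real.exp_nat_mul]
              _ ≤ Real.exp 1 := by
                  refine Real.exp_le_exp.2 ?_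
                  rw [Fintype.card_prod, Fintype.card_bool]
                  have e3 : (Fintype.card κ : ℝ) ≤ 2 ^ (c * L) := by exact_mod_cast hκ
                  have e4 : ξ = (1 / 2 : ℝ) ^ (c * L) * (1 / 2 : ℝ) ^ (4 * L) := by
                    rw [hξ, ← pow_add]; congr 1; ring
                  have e5 : (1 / 2 : ℝ) ^ (4 * L) ≤ (1 / 2 : ℝ) ^ 1 :=
                    pow_le_pow_of_le_one (by norm_num) (by norm_num) (by omega)
                  push_cast
                  calc (Fintype.card κ : ℝ) * 2 * ξ ≤ 2 ^ (c * L) * 2 * ξ := by gcongr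
                    _ = (2 ^ (c * L) * (1 / 2 : ℝ) ^ (c * L)) * (2 * (1 / 2 : ℝ) ^ (4 * L)) := by
                        rw [e4]; ring
                    _ = 2 * (1 / 2 : ℝ) ^ (4 * L) := by rw [h2half, one_mul]
                    _ ≤ 1 := by rw [pow_one] at e5; linarith
              _ ≤ 3 := by
                  have := Real.exp_one_lt_d9
                  linarith
          have e6 : (w : ℝ) * ξ ≤ (1 / 2 : ℝ) ^ 4 := by
            have e7 : ξ ≤ (1 / 2 : ℝ) ^ (L + 1 + 4) := by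
              rw [hξ]
              refine pow_le_pow_of_le_one (by norm_num) (by norm_num) ?_
              nlinarith
            calc (w : ℝ) * ξ ≤ 2 ^ (L + 1) * (1 / 2 : ℝ) ^ (L + 1 + 4) :=
                  mul_le_mul hwR2 e7 hξ0.le (by positivity)
              _ = (1 / 2 : ℝ) ^ 4 := by
                  rw [pow_add (1 / 2 : ℝ) (L + 1) 4, ← mul_assoc, h2half, one_mul]
          calc (w : ℝ) * ξ * (ξ + 1) ^ (Fintype.card (κ × Bool)) ≤ (1 / 2 : ℝ) ^ 4 * 3 :=
                mul_le_mul e6 e2 (by positivity) (by positivity)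
            _ ≤ 1 / 4 := by norm_num
  -- the second bad event
  have hsum2 : ∑ K ∈ powersetCard k (univ : Finset V),
      Ep β (fun x : Sym2 V → Bool => ind (bad2 K x)) ≤ N * (1 / 4) := by
    have h1 : ∀ K ∈ powersetCard k (univ : Finset V),
        Ep β (fun x : Sym2 V → Bool => ind (bad2 K x)) ≤ 1 / 4 := by
      intro K hK
      have hKc := (Finset.mem_powersetCard.1 hK).2
      refine (clique_union' K (by omega) hKc hmk hβ0.le hβ1).trans ?_
      rw [← hw]
      have h4 : (w : ℝ) ^ 3 * β ^ m ≤ (1 / 2) ^ (L + 2) := by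
        have h5 : (w : ℝ) ^ 3 ≤ 2 ^ (3 * L + 3) := by
          calc (w : ℝ) ^ 3 ≤ (2 ^ (L + 1)) ^ 3 := pow_le_pow_left₀ (Nat.cast_nonneg _) hwR2 3
            _ = 2 ^ (3 * L + 3) := by rw [← pow_mul]; congr 1; ring
        have h6 : β ^ m ≤ (1 / 2 : ℝ) ^ (3 * L + 3 + (L + 2)) := by
          rw [hβ, ← pow_mul]
          exact pow_le_pow_of_le_one (by norm_num) (by norm_num) (by omega)
        calc (w : ℝ) ^ 3 * β ^ m ≤ 2 ^ (3 * L + 3) * (1 / 2 : ℝ) ^ (3 * L + 3 + (L + 2)) :=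
              mul_le_mul h5 h6 (by positivity) (by positivity)
          _ = (1 / 2 : ℝ) ^ (L + 2) := by
              rw [pow_add (1 / 2 : ℝ) (3 * L + 3), ← mul_assoc, h2half, one_mul]
      calc ∑ j ∈ Finset.Icc 1 k, ((w : ℝ) ^ 3 * β ^ m) ^ j
          ≤ ∑ j ∈ Finset.Icc 1 k, (1 / 2 : ℝ) ^ (L + 2) := by
            refine Finset.sum_le_sum fun j hj => ?_
            rw [Finset.mem_Icc] at hj
            calc ((w : ℝ) ^ 3 * β ^ m) ^ j ≤ ((1 / 2 : ℝ) ^ (L + 2)) ^ j :=
                  pow_le_pow_left₀ (by positivity) h4 j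
              _ ≤ ((1 / 2 : ℝ) ^ (L + 2)) ^ 1 :=
                  pow_le_pow_of_le_one (by positivity)
                    (pow_le_one₀ (by norm_num) (by norm_num)) hj.1
              _ = (1 / 2 : ℝ) ^ (L + 2) := pow_one _
        _ = (k : ℝ) * (1 / 2 : ℝ) ^ (L + 2) := by
            rw [Finset.sum_const, Nat.card_Icc, nsmul_eq_mul, Nat.add_sub_cancel]
        _ ≤ 2 ^ L * (1 / 2 : ℝ) ^ (L + 2) := by
            refine mul_le_mul_of_nonneg_right ?_ (hhalf _).le
            exact_mod_cast hk2L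
        _ = 1 / 4 := by
            rw [pow_add (1 / 2 : ℝ) L 2, ← mul_assoc, h2half, one_mul]; norm_num
    calc _ ≤ ∑ K ∈ powersetCard k (univ : Finset V), (1 / 4 : ℝ) := Finset.sum_le_sum h1
      _ = N * (1 / 4) := by
          rw [Finset.sum_const, Finset.card_powersetCard, Finset.card_univ, nsmul_eq_mul]
  -- a good outcome
  have hgood : ∃ K ∈ powersetCard k (univ : Finset V), ∃ x : Sym2 V → Bool,
      ¬ bad1 K x ∧ ¬ bad2 K x := by
    by_contra hcon
    push Not at hcon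
    have h1 : ∀ K ∈ powersetCard k (univ : Finset V),
        (1 : ℝ) ≤ Ep β (fun x : Sym2 V → Bool => ind (bad1 K x)) +
          Ep β (fun x : Sym2 V → Bool => ind (bad2 K x)) := by
      intro K hK
      rw [← Ep_add, ← Ep_const (I := Sym2 V) β 1]
      refine Ep_mono hβ0.le hβ1 fun x => ?_
      by_cases h2 : bad1 K x
      · rw [ind_pos h2]
        have := ind_nonneg (bad2 K x)
        linarith
      · rw [ind_pos (hcon K hK x h2)]
        have := ind_nonneg (bad1 K x)
        linarith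
    have h2 : N ≤ ∑ K ∈ powersetCard k (univ : Finset V),
        (Ep β (fun x : Sym2 V → Bool => ind (bad1 K x)) +
          Ep β (fun x : Sym2 V → Bool => ind (bad2 K x))) := by
      calc N = ∑ K ∈ powersetCard k (univ : Finset V), (1 : ℝ) := by
            rw [Finset.sum_const, Finset.card_powersetCard, Finset.card_univ, nsmul_eq_mul,
              mul_one]
        _ ≤ _ := Finset.sum_le_sum h1
    rw [Finset.sum_add_distrib] at h2
    linarith
  obtain ⟨K, hK, x, hx1, hx2⟩ := hgood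
  have hKc := (Finset.mem_powersetCard.1 hK).2
  refine ⟨toG (pl K x), ?_, ?_⟩
  · intro hfree
    apply hfree K
    constructor
    · intro u hu v hv huv
      rw [toG_adj]
      refine ⟨?_, huv⟩
      have : s(u, v) ∈ prs K := mem_prs.2 ⟨hu, hv, huv⟩
      simp [pl, this]
    · exact hKc
  · intro 𝒰 h𝒰
    obtain ⟨y', hy1, hy2⟩ := cut g S s hS hgd R k τ hk8 le_rfl K hKc x
      (fun u E hE hU => hx1 ⟨(u, E), Finset.mem_product.2 ⟨Finset.mem_univ _,
        Finset.mem_filter.2 ⟨Finset.mem_univ _, hE⟩⟩, hU⟩)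
      (fun Q hQc hQ => by
        by_contra hcon
        exact hx2 ⟨Q, hQc, hcon, hQ⟩) 𝒰 h𝒰
    exact ⟨toG y', hy1, hy2⟩

end Pool.Agent.helper88.EW
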